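import Pool.Agent.Lib.DK.F4.Bas
import Pool.Agent.Lib.DI.F4.NormQ
import Pool.Agent.Lib.DI.F4.DisV

/-!
# Theorem DK, part FH: the final contradiction
-/

set_option autoImplicit false

namespace DK.F4

open PowerSeries DI.F4

/-- characteristic `2` -/
theorem res {F : Type} [Field F] [CharP F 2] {a b : F} {T W : F⟦X⟧}
    (hT1 : coeff 1 T ≠ 0) (hW : CEq a b T W) :
    W ≠ 0 ∧ T * derivative F W ≠ derivative F T * W := by
  have h2 : (2 : F⟦X⟧) = 0 := by
    have : (C (2 : F) : F⟦X⟧) = 2 := map_ofNat _ 2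
    rw [← this, CharTwo.two_eq_zero, map_zero]
  have hT0 : T ≠ 0 := by
    intro h
    rw [h, map_zero] at hT1
    exact hT1 rfl
  unfold CEq at hW
  have hW' : W ≠ 0 := by
    intro h
    rw [h] at hW
    have h3 : T ^ 3 = 0 := by linear_combination -hW
    exact hT0 (pow_eq_zero_iff (n := 3) (by norm_num) |>.1 h3)
  have hdT : derivative F T ≠ 0 := by
    intro h
    have h1 := coeff_derivative T 0
    rw [h, map_zero, Nat.cast_zero, zero_add, zero_add, mul_one] at h1
    exact hT1 h1.symm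
  refine ⟨hW', fun heq => ?_⟩
  have hd := congrArg (derivative F) hW
  simp only [Derivation.leibniz, Derivation.leibniz_pow, map_add, derivative_C,
    smul_eq_mul, nsmul_eq_mul] at hd
  have key : T * derivative F T * W = 0 := by
    push_cast at hd
    linear_combination T * hd - (1 - T - C a * T ^ 2 - 2 * (C b * T * W)) * heq -
      3 * derivative F T * hW + (derivative F T * W) * h2
  rcases mul_eq_zero.1 key with h | h
  · rcases mul_eq_zero.1 h with h | h
    · exact hT0 h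
    · exact hdT h
  · exact hW' h

private theorem Con_map {R S : Type} [CommRing R] [CommRing S] (φ : R →+* S) {a b : R} {T W : R⟦X⟧}
    (h : CEq a b T W) : CEq (φ a) (φ b) (map φ T) (map φ W) := by
  have h1 := congrArg (map φ) h
  simpa only [CEq, map_add, map_mul, map_pow, map_C] using h1

private theorem Con_inj {R S : Type} [CommRing R] [CommRing S] (φ : R →+* S)
    (hφ : Function.Injective φ) {a b : R} {T W : R⟦X⟧}
    (h : CEq (φ a) (φ b) (map φ T) (map φ W)) : CEq a b T W := by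
  apply map_injective φ hφ
  simpa only [CEq, map_add, map_mul, map_pow, map_C] using h

/-- the contradiction in characteristic `2` -/
private theorem Con_core {F : Type} [Field F] [CharP F 2] {a b : F} {TA WA TB WB q r : F⟦X⟧}
    (hA : coeff 1 TA ≠ 0) (hB : coeff 1 TB ≠ 0) (eA : CEq a b TA WA) (eB : CEq a b TB WB)
    (hr : r ≠ 0) (h : q ^ 2 * (WA * WB) = TA * WB * r ^ 2) : False := by
  have h2 : (2 : F⟦X⟧) = 0 := by
    rw [← map_ofNat (C (R := F)), CharTwo.two_eq_zero, map_zero]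
  have hTA0 : TA ≠ 0 := by
    rintro rfl
    exact hA (map_zero _)
  obtain ⟨hWB0, -⟩ := res hB eB
  obtain ⟨-, hne⟩ := res hA eA
  have h3 : q ^ 2 * WA = TA * r ^ 2 := by
    apply mul_right_cancel₀ hWB0
    linear_combination h
  have hq : q ≠ 0 := by
    rintro rfl
    have h4 : TA * r ^ 2 = 0 := by linear_combination -h3
    exact mul_ne_zero hTA0 (pow_ne_zero 2 hr) h4
  have h5 := congrArg (derivative F) h3
  simp only [Derivation.leibniz, Derivation.leibniz_pow, smul_eq_mul, nsmul_eq_mul] at h5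
  have h6 : q ^ 2 * derivative F WA = derivative F TA * r ^ 2 := by
    push_cast at h5
    linear_combination h5 - (WA * q * derivative F q - TA * r * derivative F r) * h2
  have h7 : q ^ 2 * (TA * derivative F WA - derivative F TA * WA) = 0 := by
    linear_combination TA * h6 - derivative F TA * h3
  rcases mul_eq_zero.1 h7 with h8 | h8
  · exact pow_ne_zero 2 hq h8
  · exact hne (sub_eq_zero.1 h8)

/-- lifting of series with coefficients in `V` -/
private theorem Con_lift {Om : Type} [Field Om] (V : ValuationSubring Om) (f : Om⟦X⟧)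
    (hf : ∀ n, coeff n f ∈ V) : ∃ g : V⟦X⟧, map V.subtype g = f := by
  refine ⟨mk fun n => ⟨coeff n f, hf n⟩, ?_⟩
  ext n
  rw [coeff_map, coeff_mk]
  rfl

private theorem Con_unit {Om : Type} [Field Om] (V : ValuationSubring Om) {x : V}
    (h0 : (x : Om) ≠ 0) (h : (x : Om)⁻¹ ∈ V) : IsUnit x :=
  IsUnit.of_mul_eq_one ⟨(x : Om)⁻¹, h⟩ (Subtype.ext (mul_inv_cancel₀ h0))

private theorem Con_res_ne {Om : Type} [Field Om] (V : ValuationSubring Om) {x : V}
    (h0 : (x : Om) ≠ 0) (h : (x : Om)⁻¹ ∈ V) : IsLocalRing.residue V x ≠ 0 := by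
  intro h1
  rw [IsLocalRing.residue_eq_zero_iff] at h1
  exact (IsLocalRing.mem_maximalIdeal x).1 h1 (Con_unit V h0 h)

private theorem Con_res_zero {Om : Type} [Field Om] (V : ValuationSubring Om) {x : V}
    (h : (x : Om)⁻¹ ∉ V) : IsLocalRing.residue V x = 0 := by
  rw [IsLocalRing.residue_eq_zero_iff, IsLocalRing.mem_maximalIdeal]
  rintro ⟨u, rfl⟩
  apply h
  have h1 : ((u : V) : Om)⁻¹ = ((u⁻¹ : Vˣ) : V) := by
    have h2 : ((u : V) : Om) * (((u⁻¹ : Vˣ) : V) : Om) = 1 := by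
      exact congrArg V.subtype (Units.mul_inv u)
    exact (eq_inv_of_mul_eq_one_right h2).symm
  rw [h1]
  exact Subtype.mem _

/-- **Con.** -/
theorem con {Om : Type} [Field Om] [CharZero Om] {V : ValuationSubring Om} {S : Subfield Om}
    {ϖ : Om} (hU : Unif V S ϖ) (h2 : (2 : Om)⁻¹ ∉ V) {a b m : Om} (ha : a ∈ V) (hb : b ∈ V)
    (hm : m ∈ V) {TA WA TB WB Q1 Q2 : Om⟦X⟧} (vA : ∀ n, coeff n TA ∈ V) (vB : ∀ n, coeff n TB ∈ V)
    (cTA : constantCoeff TA = 0) (cTB : constantCoeff TB = 0) (cWA : constantCoeff WA = 0)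
    (cWB : constantCoeff WB = 0) (hA : coeff 1 TA ≠ 0) (hA' : (coeff 1 TA)⁻¹ ∈ V)
    (hB : coeff 1 TB ≠ 0) (hB' : (coeff 1 TB)⁻¹ ∈ V) (eA : CEq a b TA WA) (eB : CEq a b TB WB)
    (hQ1 : Q1 ≠ 0) (hQ2 : Q2 ≠ 0) (sQ1 : ∀ n, coeff n Q1 ∈ S) (sQ2 : ∀ n, coeff n Q2 ∈ S)
    (vQ1 : ∀ n, coeff n Q1 ∈ V) (vQ2 : ∀ n, coeff n Q2 ∈ V)
    (heq : Q1 ^ 2 * C ((1 + 2 * m) ^ 2) * (WA * WB) =
      TA * (4 * TB + C (1 + 2 * m) * WB) * Q2 ^ 2) : False := by
  obtain ⟨c1, hc1, vc1, n1, hn1, hn1'⟩ := tNormQ Om V S ϖ hU Q1 hQ1 sQ1 vQ1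
  obtain ⟨c2, hc2, vc2, n2, hn2, hn2'⟩ := tNormQ Om V S ϖ hU Q2 hQ2 sQ2 vQ2
  -- the coefficients of `WA`, `WB` are in `V`
  have vW : ∀ T W : Om⟦X⟧, (∀ n, coeff n T ∈ V) → constantCoeff T = 0 → constantCoeff W = 0 →
      CEq a b T W → ∀ n, coeff n W ∈ V := by
    intro T W vT cT cW eT
    obtain ⟨h3, h4⟩ := wSol a b cT
    have h5 : W = T ^ 3 * cs (wS a b) T := by
      refine h4 _ _ cW ?_ eT h3
      rw [map_mul, map_pow, cT]
      ring
    have h6 : In V.toSubring T := vT
    have h7 : In V.toSubring W := by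
      rw [h5]
      exact (h6.pow 3).mul ((In.wS (O := V.toSubring) ha hb).cs h6 cT)
    exact h7
  have vWA := vW TA WA vA cTA cWA eA
  have vWB := vW TB WB vB cTB cWB eB
  -- lifts
  have hinj : Function.Injective V.subtype := Subtype.val_injective
  obtain ⟨tA, rfl⟩ := Con_lift V TA vA
  obtain ⟨tB, rfl⟩ := Con_lift V TB vB
  obtain ⟨wA, rfl⟩ := Con_lift V WA vWA
  obtain ⟨wB, rfl⟩ := Con_lift V WB vWB
  obtain ⟨q1, hq1⟩ := Con_lift V (C c1 * Q1) (fun n => by rw [coeff_C_mul]; exact vc1 n)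
  obtain ⟨q2, hq2⟩ := Con_lift V (C c2 * Q2) (fun n => by rw [coeff_C_mul]; exact vc2 n)
  obtain ⟨a', rfl⟩ : ∃ p : V, V.subtype p = a := ⟨⟨a, ha⟩, rfl⟩
  obtain ⟨b', rfl⟩ : ∃ p : V, V.subtype p = b := ⟨⟨b, hb⟩, rfl⟩
  obtain ⟨m', rfl⟩ : ∃ p : V, V.subtype p = m := ⟨⟨m, hm⟩, rfl⟩
  -- the residue field
  have h2F : (2 : IsLocalRing.ResidueField V) = 0 := by
    have h3 : IsLocalRing.residue V (2 : V) = 0 := by
      apply Con_res_zero
      exact h2
    rwa [map_ofNat] at h3
  have : CharP (IsLocalRing.ResidueField V) 2 :=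
    CharTwo.of_one_ne_zero_of_two_eq_zero one_ne_zero h2F
  -- the data over the residue field
  have red_ne : ∀ (f : V⟦X⟧) (n : ℕ), coeff n (map V.subtype f) ≠ 0 →
      (coeff n (map V.subtype f))⁻¹ ∈ V → coeff n (map (IsLocalRing.residue V) f) ≠ 0 := by
    intro f n h3 h4
    rw [coeff_map] at h3 h4 ⊢
    exact Con_res_ne V h3 h4
  have dA := red_ne tA 1 hA hA'
  have dB := red_ne tB 1 hB hB'
  have fA := Con_map (IsLocalRing.residue V) (Con_inj V.subtype hinj eA)
  have fB := Con_map (IsLocalRing.residue V) (Con_inj V.subtype hinj eB)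
  have hr1 : map (IsLocalRing.residue V) q1 ≠ 0 := by
    intro h
    refine red_ne q1 n1 ?_ ?_ (by rw [h, map_zero])
    · rw [hq1, coeff_C_mul]
      exact hn1
    · rw [hq1, coeff_C_mul]
      exact hn1'
  have hr2 : map (IsLocalRing.residue V) q2 ≠ 0 := by
    intro h
    refine red_ne q2 n2 ?_ ?_ (by rw [h, map_zero])
    · rw [hq2, coeff_C_mul]
      exact hn2
    · rw [hq2, coeff_C_mul]
      exact hn2'
  have h2X : (2 : (IsLocalRing.ResidueField V)⟦X⟧) = 0 := by
    rw [← map_ofNat (C (R := IsLocalRing.ResidueField V)), h2F, map_zero]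
  -- the equation, multiplied by the square of c1 c2
  have heq2 : C c2 ^ 2 * map V.subtype q1 ^ 2 * C ((1 + 2 * V.subtype m') ^ 2) *
      (map V.subtype wA * map V.subtype wB) =
      C c1 ^ 2 * (map V.subtype tA * (4 * map V.subtype tB + C (1 + 2 * V.subtype m') *
        map V.subtype wB) * map V.subtype q2 ^ 2) := by
    rw [hq1, hq2]
    linear_combination (C c1 ^ 2 * C c2 ^ 2) * heq
  by_cases ht : c2 / c1 ∈ V
  · obtain ⟨t, ht'⟩ : ∃ t : V, V.subtype t = c2 / c1 := ⟨⟨_, ht⟩, rfl⟩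
    have ht2 : c2 = c1 * V.subtype t := by
      rw [ht']
      field_simp
    have h3 : C t ^ 2 * q1 ^ 2 * C ((1 + 2 * m') ^ 2) * (wA * wB) =
        tA * (4 * tB + C (1 + 2 * m') * wB) * q2 ^ 2 := by
      apply map_injective V.subtype hinj
      apply mul_left_cancel₀ (pow_ne_zero 2 ((map_ne_zero_iff (C (R := Om)) C_injective).2 hc1))
      simp only [map_mul, map_add, map_pow, map_C, map_one, map_ofNat] at heq2 ⊢
      rw [ht2, map_mul] at heq2
      linear_combination heq2
    have h4 := congrArg (map (IsLocalRing.residue V)) h3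
    simp only [map_mul, map_add, map_pow, map_C, map_one, map_ofNat] at h4
    refine Con_core (q := C (IsLocalRing.residue V t) * map (IsLocalRing.residue V) q1)
      dA dB fA fB hr2 ?_
    linear_combination h4 - (2 * C (IsLocalRing.residue V m') + 2 * C (IsLocalRing.residue V m') ^ 2) *
      C (IsLocalRing.residue V t) ^ 2 * map (IsLocalRing.residue V) q1 ^ 2 *
      (map (IsLocalRing.residue V) wA * map (IsLocalRing.residue V) wB) * h2X +
      map (IsLocalRing.residue V) tA * (2 * map (IsLocalRing.residue V) tB +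
      C (IsLocalRing.residue V m') * map (IsLocalRing.residue V) wB) *
      map (IsLocalRing.residue V) q2 ^ 2 * h2X
  · have ht0 : c2 / c1 ≠ 0 := div_ne_zero hc2 hc1
    have ht1 : (c2 / c1)⁻¹ ∈ V := (V.mem_or_inv_mem _).resolve_left ht
    obtain ⟨s, hs⟩ : ∃ s : V, V.subtype s = (c2 / c1)⁻¹ := ⟨⟨_, ht1⟩, rfl⟩
    have hs0 : IsLocalRing.residue V s = 0 := by
      apply Con_res_zero
      change (V.subtype s)⁻¹ ∉ V
      rw [hs, inv_inv]
      exact ht
    have hs2 : c1 = c2 * V.subtype s := by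
      rw [hs]
      field_simp
    have h3 : q1 ^ 2 * C ((1 + 2 * m') ^ 2) * (wA * wB) = C s ^ 2 * (tA *
        (4 * tB + C (1 + 2 * m') * wB) * q2 ^ 2) := by
      apply map_injective V.subtype hinj
      apply mul_left_cancel₀ (pow_ne_zero 2 ((map_ne_zero_iff (C (R := Om)) C_injective).2 hc2))
      simp only [map_mul, map_add, map_pow, map_C, map_one, map_ofNat] at heq2 ⊢
      rw [hs2, map_mul] at heq2
      linear_combination heq2
    have h4 := congrArg (map (IsLocalRing.residue V)) h3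
    simp only [map_mul, map_add, map_pow, map_C, map_one, map_ofNat, hs0, map_zero] at h4
    have h5 : map (IsLocalRing.residue V) q1 ^ 2 *
        (map (IsLocalRing.residue V) wA * map (IsLocalRing.residue V) wB) = 0 := by
      linear_combination h4 - (2 * C (IsLocalRing.residue V m') +
        2 * C (IsLocalRing.residue V m') ^ 2) * map (IsLocalRing.residue V) q1 ^ 2 *
        (map (IsLocalRing.residue V) wA * map (IsLocalRing.residue V) wB) * h2X
    obtain ⟨hWA0, -⟩ := res dA fA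
    obtain ⟨hWB0, -⟩ := res dB fB
    exact mul_ne_zero (pow_ne_zero 2 hr1) (mul_ne_zero hWA0 hWB0) h5

end DK.F4
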