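import Pool.Agent.Lib.DK.F4.Iso

/-!
# Theorem DK, part FH: the isogeny `𝔭` in the parameter `T`: integrality and `T' = T²` modulo `2`
-/

set_option autoImplicit false

namespace DK.F4

open PowerSeries DI.F4

section mod

variable {B : Type} [CommRing B]

theorem mod_two (h2 : (2 : B) = 0) {w x k d c : B}
    (hk : k = c)
    (hw : w = 1 + x * w + (k + 4 * (d * (1 + 4 * k))) * (x ^ 2 * w) +
      d * (1 + 4 * k) ^ 2 * (x ^ 2 * w) ^ 2) {z a b q y C : B} (hz : z = x ^ 2 * w)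
    (ha : a = 1 + 4 * (d * (1 + 4 * k) * z)) (hb : b = 4 + (1 + 4 * k) * z)
    (hq : q = 2 + (1 + 4 * k) * z + 2 * (d * (1 + 4 * k) ^ 2 * z ^ 2))
    (hy : y = (1 + 2 * c - c * x) * q + x + 8 * (d * (1 + 4 * k) * x * z) +
      d * (1 + 4 * k) ^ 2 * x * z ^ 2)
    (hC : C = (1 + 2 * c) ^ 4 * a ^ 2 +
      (c ^ 2 + 4 * (d ^ 2 * (1 + 4 * c ^ 2))) * (1 + 2 * c) ^ 2 * z * a * b +
      d ^ 2 * (1 + 4 * c ^ 2) ^ 2 * z ^ 2 * b ^ 2) :
    (1 + 2 * c) ^ 2 * x * w * (y - x * a * b) - x ^ 2 * C = 0 := by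
  subst hk
  have ha1 : a = 1 := by
    rw [ha]
    linear_combination (2 * (d * (1 + 4 * k) * z)) * h2
  have hb1 : b = z := by
    rw [hb]
    linear_combination (2 + 2 * k * z) * h2
  have hq1 : q = z := by
    rw [hq]
    linear_combination (1 + 2 * k * z + d * (1 + 4 * k) ^ 2 * z ^ 2) * h2
  have hy1 : y = z - k * x * z + x + d * x * z ^ 2 := by
    rw [hy, hq1]
    linear_combination (k * z + 4 * (d * (1 + 4 * k) * x * z) +
      d * (4 * k + 8 * k ^ 2) * x * z ^ 2) * h2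
  have hC1 : C = 1 + k ^ 2 * z ^ 2 + d ^ 2 * z ^ 4 := by
    rw [hC, ha1, hb1]
    linear_combination (4 * k + 12 * k ^ 2 + 16 * k ^ 3 + 8 * k ^ 4 +
      (2 * (d ^ 2 * (1 + 4 * k ^ 2)) * (1 + 2 * k) ^ 2 + k ^ 2 * (2 * k + 2 * k ^ 2)) * z ^ 2 +
      d ^ 2 * (4 * k ^ 2 + 8 * k ^ 4) * z ^ 4) * h2
  have hs : 1 + k * z + d * z ^ 2 = w * (1 - x) := by
    rw [hz]
    linear_combination (-1 : B) * hw - (2 * (d * (1 + 4 * k)) * (x ^ 2 * w) +
      d * (4 * k + 8 * k ^ 2) * (x ^ 2 * w) ^ 2) * h2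
  have he : (1 + 2 * k) ^ 2 = 1 := by
    linear_combination (2 * k + 2 * k ^ 2) * h2
  rw [he, ha1, hb1, hy1, hC1]
  linear_combination (x ^ 2 * w - x ^ 2 * (1 + k * z + d * z ^ 2 + w * (1 - x))) * hs +
    (x ^ 3 * w ^ 2 * (1 - x) - k * x ^ 2 * w * z + x ^ 2 * (k * z + d * z ^ 2 + k * d * z ^ 3)) * h2 +
    (x * w * (1 - x)) * hz

end mod

section map

variable {R S : Type} [CommRing R] [CommRing S] (φ : R →+* S) (k d h c l : R)

theorem map_zS : map φ (zS k d) = zS (φ k) (φ d) := by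
  simp only [zS, map_mul, map_pow, map_X, map_wS, map_aP, map_bP]

theorem map_aS : map φ (aS k d) = aS (φ k) (φ d) := by
  simp only [aS, map_mul, map_add, map_one, map_ofNat, map_C, map_zS]

theorem map_bS : map φ (bS k d) = bS (φ k) (φ d) := by
  simp only [bS, map_mul, map_add, map_one, map_ofNat, map_C, map_zS]

theorem map_qS : map φ (qS k d) = qS (φ k) (φ d) := by
  simp only [qS, map_mul, map_add, map_pow, map_one, map_ofNat, map_C, map_zS]

theorem map_yS : map φ (yS k d c) = yS (φ k) (φ d) (φ c) := by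
  simp only [yS, map_mul, map_add, map_sub, map_pow, map_one, map_ofNat, map_C, map_X, map_zS,
    map_qS]

theorem map_cS : map φ (cS k d h c l) = cS (φ k) (φ d) (φ h) (φ c) (φ l) := by
  simp only [cS, map_mul, map_add, map_pow, map_one, map_ofNat, map_C, map_zS, map_aS, map_bS]

end map

section int

variable {L : Type} [Field L] {O : Subring L}

theorem In.inv' {f : L⟦X⟧} (hf : In O f) (h1 : (constantCoeff f)⁻¹ ∈ O) : In O f⁻¹ := by
  intro n
  induction n using Nat.strong_induction_on with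
  | _ n ih =>
    rw [coeff_inv]
    split_ifs with hn
    · exact h1
    · refine O.mul_mem (O.neg_mem h1) (O.sum_mem fun x _ => ?_)
      split_ifs with hx
      · exact O.mul_mem (hf _) (ih _ hx)
      · exact O.zero_mem

theorem In.of_map (f : (O)⟦X⟧) : In O (map O.subtype f) := fun n => by
  rw [coeff_map]
  exact Subtype.prop _

/-- `T'` is integral and congruent to `T²` modulo `2` -/
theorem FS_int [CharZero L] {k d h c l m : L} (hk : k ∈ O) (hd : d ∈ O) (hh : h ∈ O) (hc : c ∈ O)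
    (hl : l ∈ O) (hm : m ∈ O) (he : (1 + 2 * c)⁻¹ ∈ O) (he0 : 1 + 2 * c ≠ 0)
    (hp : Par k d h c l) (hkc : k = c + 2 * m) :
    In O (FS k d h c l) ∧ InM O 2 (FS k d h c l - X ^ 2) := by
  -- everything over the ring `O`
  obtain ⟨k', rfl⟩ : ∃ k' : O, O.subtype k' = k := ⟨⟨k, hk⟩, rfl⟩
  obtain ⟨d', rfl⟩ : ∃ k' : O, O.subtype k' = d := ⟨⟨d, hd⟩, rfl⟩
  obtain ⟨h', rfl⟩ : ∃ k' : O, O.subtype k' = h := ⟨⟨h, hh⟩, rfl⟩
  obtain ⟨c', rfl⟩ : ∃ k' : O, O.subtype k' = c := ⟨⟨c, hc⟩, rfl⟩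
  obtain ⟨l', rfl⟩ : ∃ k' : O, O.subtype k' = l := ⟨⟨l, hl⟩, rfl⟩
  obtain ⟨m', rfl⟩ : ∃ k' : O, O.subtype k' = m := ⟨⟨m, hm⟩, rfl⟩
  have hinj : Function.Injective O.subtype := Subtype.val_injective
  have hkc' : k' = c' + 2 * m' := hinj (by
    rw [hkc, map_add, map_mul, map_ofNat])
  have hhh : d' * (1 + 4 * h') ^ 2 = h' := hinj (by
    have := hp.hh
    simpa only [map_mul, map_pow, map_add, map_one, map_ofNat] using this)
  have hkk : (1 + 4 * l') * (1 + 4 * h') ^ 2 = (1 + 2 * c') ^ 2 * (1 + 4 * k') := hinj (by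
    have := hp.kk
    simpa only [map_mul, map_pow, map_add, map_one, map_ofNat] using this)
  have h4 : (4 : O) ≠ 0 := by
    intro h1
    have h2 := congrArg O.subtype h1
    rw [map_ofNat, map_zero] at h2
    exact (by norm_num : (4 : L) ≠ 0) h2
  have hll : l' = c' ^ 2 + 2 * (c' + m' + 2 * k' * (c' + c' ^ 2) - h' - 2 * h' ^ 2 -
      l' * (4 * h' + 8 * h' ^ 2)) := by
    apply mul_left_cancel₀ h4
    linear_combination hkk + 4 * hkc'
  obtain ⟨N, hN⟩ : ∃ N : (O)⟦X⟧, N = (1 + 2 * C c') ^ 2 * X * wS (aP k' d') (bP k' d') *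
    (yS k' d' c' - X * aS k' d' * bS k' d') - X ^ 2 * cS k' d' h' c' l' := ⟨_, rfl⟩
  have hN2 : ∃ S : (O)⟦X⟧, 2 * S = N := by
    have key : N ∈ Ideal.span {(2 : (O)⟦X⟧)} := by
      rw [← Ideal.Quotient.eq_zero_iff_mem]
      have h2 : (2 : (O)⟦X⟧ ⧸ Ideal.span {(2 : (O)⟦X⟧)}) = 0 := by
        rw [← map_ofNat (Ideal.Quotient.mk (Ideal.span {(2 : (O)⟦X⟧)})) 2,
          Ideal.Quotient.eq_zero_iff_mem]
        exact Ideal.mem_span_singleton_self _
      have e1 : Ideal.Quotient.mk (Ideal.span {(2 : (O)⟦X⟧)}) (C k') =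
          Ideal.Quotient.mk (Ideal.span {(2 : (O)⟦X⟧)}) (C c') := by
        rw [hkc', map_add, map_mul, map_add, map_mul, map_ofNat, map_ofNat, h2, zero_mul, add_zero]
      have e2 : Ideal.Quotient.mk (Ideal.span {(2 : (O)⟦X⟧)}) (C h') =
          Ideal.Quotient.mk (Ideal.span {(2 : (O)⟦X⟧)}) (C d') := by
        have h5 := congrArg (fun x => Ideal.Quotient.mk (Ideal.span {(2 : (O)⟦X⟧)}) (C x)) hhh
        simp only [map_mul, map_pow, map_add, map_one, map_ofNat] at h5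
        linear_combination (-1 : (O)⟦X⟧ ⧸ Ideal.span {(2 : (O)⟦X⟧)}) * h5 +
          (Ideal.Quotient.mk (Ideal.span {(2 : (O)⟦X⟧)}) (C d') *
          (4 * Ideal.Quotient.mk (Ideal.span {(2 : (O)⟦X⟧)}) (C h') +
          8 * Ideal.Quotient.mk (Ideal.span {(2 : (O)⟦X⟧)}) (C h') ^ 2)) * h2
      have e3 : Ideal.Quotient.mk (Ideal.span {(2 : (O)⟦X⟧)}) (C l') =
          Ideal.Quotient.mk (Ideal.span {(2 : (O)⟦X⟧)}) (C c') ^ 2 := by
        rw [hll, map_add, map_mul, map_add, map_mul, map_ofNat, map_ofNat, h2, zero_mul, add_zero,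
          map_pow, map_pow]
      have h6 := congrArg (Ideal.Quotient.mk (Ideal.span {(2 : (O)⟦X⟧)})) (zS_eq k' d')
      rw [hN]
      simp only [map_mul, map_pow, map_add, map_sub, map_one, map_ofNat] at h6 ⊢
      have h7 := mod_two (B := (O)⟦X⟧ ⧸ Ideal.span {(2 : (O)⟦X⟧)}) h2
        (w := Ideal.Quotient.mk _ (wS (aP k' d') (bP k' d'))) (x := Ideal.Quotient.mk _ X)
        (k := Ideal.Quotient.mk _ (C k')) (d := Ideal.Quotient.mk _ (C d'))
        (c := Ideal.Quotient.mk _ (C c')) (z := Ideal.Quotient.mk _ (zS k' d'))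
        (a := Ideal.Quotient.mk _ (aS k' d')) (b := Ideal.Quotient.mk _ (bS k' d'))
        (q := Ideal.Quotient.mk _ (qS k' d')) (y := Ideal.Quotient.mk _ (yS k' d' c'))
        (C := Ideal.Quotient.mk _ (cS k' d' h' c' l')) e1
      refine h7 ?_ ?_ ?_ ?_ ?_ ?_ ?_
      · rw [← map_pow, ← map_mul]
        exact h6
      · rw [← map_pow, ← map_mul]
        rfl
      · simp only [aS, map_mul, map_add, map_one, map_ofNat]
      · simp only [bS, map_mul, map_add, map_one, map_ofNat]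
      · simp only [qS, map_mul, map_pow, map_add, map_one, map_ofNat]
      · simp only [yS, map_mul, map_pow, map_add, map_sub, map_one, map_ofNat]
      · rw [← e2, ← e3]
        simp only [cS, map_mul, map_pow, map_add, map_one, map_ofNat]
    obtain ⟨S, hS⟩ := Ideal.mem_span_singleton'.1 key
    exact ⟨S, by rw [mul_comm]; exact hS⟩
  obtain ⟨S, hS⟩ := hN2
  have hcI : In O (cS (O.subtype k') (O.subtype d') (O.subtype h') (O.subtype c')
      (O.subtype l'))⁻¹ := by
    refine In.inv' ?_ ?_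
    · rw [← map_cS]
      exact In.of_map _
    · rw [cS_const, ← inv_pow]
      exact pow_mem he 4
  have hc1 : cS (O.subtype k') (O.subtype d') (O.subtype h') (O.subtype c') (O.subtype l') *
      (cS (O.subtype k') (O.subtype d') (O.subtype h') (O.subtype c') (O.subtype l'))⁻¹ = 1 :=
    PowerSeries.mul_inv_cancel _ (by
      rw [cS_const]
      exact pow_ne_zero 4 he0)
  have hmapN : map O.subtype N = (1 + 2 * C (O.subtype c')) ^ 2 * X *
      wS (aP (O.subtype k') (O.subtype d')) (bP (O.subtype k') (O.subtype d')) *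
      (yS (O.subtype k') (O.subtype d') (O.subtype c') - X * aS (O.subtype k') (O.subtype d') *
        bS (O.subtype k') (O.subtype d')) -
      X ^ 2 * cS (O.subtype k') (O.subtype d') (O.subtype h') (O.subtype c') (O.subtype l') := by
    rw [hN]
    simp only [map_sub, map_mul, map_pow, map_add, map_one, map_ofNat, map_C, map_X, map_wS, map_aP,
      map_bP, map_yS, map_aS, map_bS, map_cS]
  constructor
  · unfold FS
    refine In.mul ?_ hcI
    have h8 := In.of_map (O := O) ((1 + 2 * C c') ^ 2 * X * wS (aP k' d') (bP k' d') *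
      (yS k' d' c' - X * aS k' d' * bS k' d'))
    simpa only [map_sub, map_mul, map_pow, map_add, map_one, map_ofNat, map_C, map_X, map_wS,
      map_aP, map_bP, map_yS, map_aS, map_bS, map_cS] using h8
  · refine inM_iff.2 ⟨map O.subtype S * (cS (O.subtype k') (O.subtype d') (O.subtype h')
      (O.subtype c') (O.subtype l'))⁻¹, (In.of_map S).mul hcI, ?_⟩
    have h9 := congrArg (map O.subtype) hS
    rw [hmapN, map_mul, map_ofNat] at h9
    rw [map_ofNat]
    unfold FS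
    linear_combination (-(cS (O.subtype k') (O.subtype d') (O.subtype h') (O.subtype c')
      (O.subtype l'))⁻¹) * h9 + X ^ 2 * hc1

end int

end DK.F4
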