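import Pool.Agent.Lib.DK.F4.Bas
import Pool.Agent.Lib.DI.F4.SubN

/-!
# Theorem DK, part FH: Honda's argument modulo `2` (with a change of the curve)
-/

set_option autoImplicit false

namespace DK.F4

open PowerSeries DI.F4

/-- the odd integers are invertible in `O` -/
def Od {L : Type} [Field L] (O : Subring L) : Prop := ∀ n : ℕ, Odd n → (n : L)⁻¹ ∈ O

theorem two_pow_div {L : Type} [Field L] [CharZero L] {O : Subring L}
    (h : Od O) (k : ℕ) : (2 : L) ^ k / ((k : L) + 1) ∈ O := by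
  obtain ⟨a, m, hm, hk⟩ := Nat.exists_eq_two_pow_mul_odd (Nat.succ_ne_zero k)
  have ha : a ≤ k := by
    have h1 : a < 2 ^ a := Nat.lt_two_pow_self
    have h2 : 2 ^ a ≤ k.succ := by
      rw [hk]
      exact Nat.le_mul_of_pos_right _ hm.pos
    omega
  have h20 : (2 : L) ≠ 0 := two_ne_zero
  have hm0 : (m : L) ≠ 0 := by
    exact_mod_cast hm.pos.ne'
  have hk1 : (k : L) + 1 = 2 ^ a * m := by
    exact_mod_cast hk
  have hkey : (2 : L) ^ k / ((k : L) + 1) = 2 ^ (k - a) * (m : L)⁻¹ := by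
    rw [hk1]
    have h3 : (2 : L) ^ k = 2 ^ (k - a) * 2 ^ a := by
      rw [← pow_add, Nat.sub_add_cancel ha]
    rw [h3]
    have hpa : (2 : L) ^ a ≠ 0 := pow_ne_zero _ h20
    field_simp
  rw [hkey]
  exact O.mul_mem (pow_mem (by
    have := natCast_mem O 2
    exact_mod_cast this) _) (h m hm)

private theorem PowD_sum {L : Type} [Field L] {O : Subring L} {c : L} (s : Finset ℕ)
    (F : ℕ → L⟦X⟧) (h : ∀ i ∈ s, InM O c (F i)) : InM O c (∑ i ∈ s, F i) := by
  classical
  induction s using Finset.induction_on with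
  | empty =>
    rw [Finset.sum_empty]
    exact InM.zero
  | insert i s hi ih =>
    rw [Finset.sum_insert hi]
    exact (h i (Finset.mem_insert_self i s)).add
      (ih fun j hj => h j (Finset.mem_insert_of_mem hj))

theorem powD {L : Type} [Field L] [CharZero L] {O : Subring L} (hOK : Od O) {A B : L⟦X⟧}
    (hB : In O B) (hAB : InM O 2 (A - B)) {d : ℕ} (hd : 1 ≤ d) :
    InM O ((d : L) * 2) (A ^ d - B ^ d) := by
  obtain ⟨D, hD, hABD⟩ := inM_iff.1 hAB
  obtain ⟨n, rfl⟩ : ∃ n, d = n + 1 := ⟨d - 1, by omega⟩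
  have hA : A = C 2 * D + B := by
    rw [← hABD]
    ring
  have h1 : A ^ (n + 1) - B ^ (n + 1) = ∑ k ∈ Finset.range (n + 1),
      (C 2 * D) ^ (k + 1) * B ^ (n + 1 - (k + 1)) * ((n + 1).choose (k + 1) : L⟦X⟧) := by
    rw [hA, add_pow, Finset.sum_range_succ', pow_zero, Nat.sub_zero, Nat.choose_zero_right,
      Nat.cast_one, one_mul, mul_one, add_sub_cancel_right]
  rw [h1]
  refine PowD_sum _ _ fun k _ => inM_iff.2
    ⟨C (2 ^ k / ((k : L) + 1)) * ((n.choose k : L⟦X⟧) * (D ^ (k + 1) * B ^ (n + 1 - (k + 1)))),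
      (In.C (two_pow_div hOK k)).mul ((In.natCast _).mul ((hD.pow _).mul (hB.pow _))), ?_⟩
  have hk0 : ((k : L) + 1) ≠ 0 := by exact_mod_cast Nat.succ_ne_zero k
  have h2 : ((n + 1).choose (k + 1) : L) * 2 ^ (k + 1) =
      (((n + 1 : ℕ) : L) * 2) * (2 ^ k / ((k : L) + 1)) * (n.choose k : L) := by
    have h3 : ((n : L) + 1) * (n.choose k : L) = ((n + 1).choose (k + 1) : L) * ((k : L) + 1) := by
      exact_mod_cast Nat.add_one_mul_choose_eq n k
    push_cast
    rw [pow_succ]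
    field_simp
    linear_combination (-(1 : L)) * h3
  have h4 : (C (R := L)) ((n + 1).choose (k + 1) : L) * C 2 ^ (k + 1) =
      C (((n + 1 : ℕ) : L) * 2) * C (2 ^ k / ((k : L) + 1)) * C (n.choose k : L) := by
    rw [← map_pow, ← map_mul, ← map_mul, ← map_mul, h2]
  rw [map_natCast, map_natCast] at h4
  rw [mul_pow]
  linear_combination (D ^ (k + 1) * B ^ (n + 1 - (k + 1))) * h4

/-- the logarithms of congruent series are congruent -/
theorem lgC {L : Type} [Field L] [CharZero L] {O : Subring L} (hO : Od O) {a b : L} (ha : a ∈ O)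
    (hb : b ∈ O) {A B : L⟦X⟧} (hB : In O B) (hA0 : constantCoeff A = 0)
    (hB0 : constantCoeff B = 0) (hAB : InM O 2 (A - B)) :
    InM O 2 (cs (lgS a b) A - cs (lgS a b) B) := by
  intro n
  rw [map_sub, coeff_cs hA0, coeff_cs hB0, ← Finset.sum_sub_distrib]
  refine Finset.sum_induction _ (fun x : L => ∃ a ∈ O, x = 2 * a) ?_ ?_ ?_
  · rintro x y ⟨a, ha, rfl⟩ ⟨b, hb, rfl⟩
    exact ⟨a + b, O.add_mem ha hb, by ring⟩
  · exact ⟨0, O.zero_mem, by ring⟩
  · intro d _
    rcases Nat.eq_zero_or_pos d with rfl | hd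
    · exact ⟨0, O.zero_mem, by rw [pow_zero, pow_zero]; ring⟩
    · obtain ⟨c, hc, h1⟩ := powD hO hB hAB hd n
      refine ⟨coeff (d - 1) (omS a b) * c, O.mul_mem (In.omS ha hb _) hc, ?_⟩
      have h2 : coeff d (lgS a b) = coeff (d - 1) (omS a b) / d := by
        rw [lgS, coeff_mk]
      have h3 : (d : L) ≠ 0 := by
        exact_mod_cast hd.ne'
      rw [← mul_sub, ← map_sub, h1, h2]
      field_simp

/-- A symmetric sum over the antidiagonal. -/
private theorem FrSq_sum {L : Type} [CommRing L] (a : ℕ → L) (m : ℕ) :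
    ∑ p ∈ Finset.HasAntidiagonal.antidiagonal m, a p.1 * a p.2 =
      2 * (∑ p ∈ (Finset.HasAntidiagonal.antidiagonal m).filter (fun p => p.1 < p.2), a p.1 * a p.2) +
        ∑ p ∈ (Finset.HasAntidiagonal.antidiagonal m).filter (fun p => p.1 = p.2), a p.1 * a p.2 := by
  have h1 : ∑ p ∈ (Finset.HasAntidiagonal.antidiagonal m).filter (fun p => p.2 < p.1), a p.1 * a p.2 =
      ∑ p ∈ (Finset.HasAntidiagonal.antidiagonal m).filter (fun p => p.1 < p.2), a p.1 * a p.2 := by
    refine Finset.sum_nbij' Prod.swap Prod.swap ?_ ?_ ?_ ?_ ?_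
    · intro p hp
      rw [Finset.mem_filter, Finset.HasAntidiagonal.mem_antidiagonal] at hp ⊢
      exact ⟨by rw [← hp.1, Prod.fst_swap, Prod.snd_swap, add_comm], hp.2⟩
    · intro p hp
      rw [Finset.mem_filter, Finset.HasAntidiagonal.mem_antidiagonal] at hp ⊢
      exact ⟨by rw [← hp.1, Prod.fst_swap, Prod.snd_swap, add_comm], hp.2⟩
    · intro p _
      exact Prod.swap_swap p
    · intro p _
      exact Prod.swap_swap p
    · intro p _
      rw [Prod.fst_swap, Prod.snd_swap, mul_comm]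
  have h2 : ∑ p ∈ (Finset.HasAntidiagonal.antidiagonal m).filter (fun p => ¬ p.1 < p.2), a p.1 * a p.2 =
      (∑ p ∈ (Finset.HasAntidiagonal.antidiagonal m).filter (fun p => p.2 < p.1), a p.1 * a p.2) +
        ∑ p ∈ (Finset.HasAntidiagonal.antidiagonal m).filter (fun p => p.1 = p.2), a p.1 * a p.2 := by
    rw [← Finset.sum_union]
    · refine Finset.sum_congr ?_ fun _ _ => rfl
      ext p
      simp only [Finset.mem_union, Finset.mem_filter]
      constructor
      · rintro ⟨h3, h4⟩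
        rcases lt_or_eq_of_le (not_lt.1 h4) with h5 | h5
        · exact Or.inl ⟨h3, h5⟩
        · exact Or.inr ⟨h3, h5.symm⟩
      · rintro (⟨h3, h4⟩ | ⟨h3, h4⟩)
        · exact ⟨h3, not_lt.2 h4.le⟩
        · exact ⟨h3, not_lt.2 h4.ge⟩
    · rw [Finset.disjoint_left]
      intro p h3 h4
      rw [Finset.mem_filter] at h3 h4
      exact absurd h4.2 (ne_of_gt h3.2)
  rw [← Finset.sum_filter_add_sum_filter_not _ (fun p : ℕ × ℕ => p.1 < p.2), h2, h1]
  ring

theorem frSq {L : Type} [Field L] [CharZero L] {O : Subring L} {Fr : L →+* L}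
    (hFr : ∀ a ∈ O, ∃ b ∈ O, Fr a = a ^ 2 + 2 * b) {g : L⟦X⟧} (hg : In O g) :
    InM O 2 (g ^ 2 - cs (map Fr g) (X ^ 2)) := by
  intro m
  have hX : constantCoeff ((X : L⟦X⟧) ^ 2) = 0 := by
    rw [map_pow, constantCoeff_X, zero_pow (by norm_num)]
  obtain ⟨A, hA⟩ : ∃ A, A = ∑ p ∈ (Finset.HasAntidiagonal.antidiagonal m).filter (fun p => p.1 < p.2),
    coeff p.1 g * coeff p.2 g := ⟨_, rfl⟩
  have hAO : A ∈ O := by
    rw [hA]
    exact O.sum_mem fun p _ => O.mul_mem (hg _) (hg _)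
  have e1 : coeff m (g ^ 2) = 2 * A +
      ∑ p ∈ (Finset.HasAntidiagonal.antidiagonal m).filter (fun p => p.1 = p.2), coeff p.1 g * coeff p.2 g := by
    rw [pow_two, coeff_mul, FrSq_sum (fun i => coeff i g) m, hA]
  rw [map_sub, e1, coeff_cs hX]
  by_cases hm : ∃ k, m = 2 * k
  · obtain ⟨k, rfl⟩ := hm
    obtain ⟨b, hb, hFb⟩ := hFr _ (hg k)
    refine ⟨A - b, O.sub_mem hAO hb, ?_⟩
    have e2 : (Finset.HasAntidiagonal.antidiagonal (2 * k)).filter (fun p => p.1 = p.2) = {(k, k)} := by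
      ext p
      rw [Finset.mem_filter, Finset.HasAntidiagonal.mem_antidiagonal, Finset.mem_singleton, Prod.ext_iff]
      constructor
      · rintro ⟨h3, h4⟩
        exact ⟨by omega, by omega⟩
      · rintro ⟨h3, h4⟩
        exact ⟨by omega, by omega⟩
    have e3 : ∑ d ∈ Finset.range (2 * k + 1), coeff d (map Fr g) * coeff (2 * k) ((X ^ 2) ^ d) =
        Fr (coeff k g) := by
      rw [Finset.sum_eq_single k]
      · rw [← pow_mul, coeff_X_pow_self, mul_one, coeff_map]
      · intro d _ hd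
        rw [← pow_mul, coeff_X_pow, if_neg (by omega), mul_zero]
      · intro h
        exact absurd (Finset.mem_range.2 (by omega)) h
    rw [e2, e3, Finset.sum_singleton, hFb]
    ring
  · refine ⟨A, hAO, ?_⟩
    have e2 : (Finset.HasAntidiagonal.antidiagonal m).filter (fun p => p.1 = p.2) = ∅ := by
      rw [Finset.filter_eq_empty_iff]
      intro p hp h
      rw [Finset.HasAntidiagonal.mem_antidiagonal] at hp
      exact hm ⟨p.1, by omega⟩
    have e3 : ∑ d ∈ Finset.range (m + 1), coeff d (map Fr g) * coeff m ((X ^ 2) ^ d) = 0 := by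
      refine Finset.sum_eq_zero fun d _ => ?_
      rw [← pow_mul, coeff_X_pow, if_neg (fun h => hm ⟨d, h⟩), mul_zero]
    rw [e2, e3, Finset.sum_empty]
    ring

/-- the truncation of `g` -/
private noncomputable def Honda_tr {L : Type} [Field L] (n : ℕ) (g : L⟦X⟧) : L⟦X⟧ :=
  mk fun i => if i < n then coeff i g else 0

private theorem Honda_tr_lt {L : Type} [Field L] {n i : ℕ} (h : i < n) (g : L⟦X⟧) :
    coeff i (Honda_tr n g) = coeff i g := by
  rw [Honda_tr, coeff_mk, if_pos h]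

private theorem Honda_tr_self {L : Type} [Field L] (n : ℕ) (g : L⟦X⟧) :
    coeff n (Honda_tr n g) = 0 := by
  rw [Honda_tr, coeff_mk, if_neg (lt_irrefl n)]

/-- **Honda.** -/
theorem honda {L : Type} [Field L] [CharZero L] {O : Subring L} (hO : Od O) {Fr : L →+* L}
    (hFr : ∀ a ∈ O, ∃ b ∈ O, Fr a = a ^ 2 + 2 * b) {a b e : L} (ha : a ∈ O) (hb : b ∈ O)
    (he : e ∈ O) (he0 : e ≠ 0) {F : L⟦X⟧} (hF0 : constantCoeff F = 0) (hF1 : coeff 1 F = 2 / e)
    (hFX : InM O 2 (F - X ^ 2))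
    (hlog : cs (lgS (Fr a) (Fr b)) F = C (2 / e) * lgS a b) {u : L⟦X⟧}
    (hu : constantCoeff u = 0) (hρ : In O (u - C (e / 2) * cs (map Fr u) (X ^ 2))) :
    In O (TofS a b u) := by
  have h2O : (2 : L) ∈ O := by
    have := natCast_mem O 2
    exact_mod_cast this
  have hpi : (2 : L) / e ≠ 0 := div_ne_zero two_ne_zero he0
  have hX2 : constantCoeff ((X : L⟦X⟧) ^ 2) = 0 := by
    rw [map_pow, constantCoeff_X, zero_pow (by norm_num)]
  have hFrO : ∀ a ∈ O, Fr a ∈ O := by
    intro a ha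
    obtain ⟨b, hb, h⟩ := hFr a ha
    rw [h]
    exact O.add_mem (O.pow_mem ha 2) (O.mul_mem h2O hb)
  obtain ⟨g, hg⟩ : ∃ g, g = TofS a b u := ⟨_, rfl⟩
  have hg0 : constantCoeff g = 0 := by rw [hg, TofS_const hu]
  have hlg : cs (lgS a b) g = u := by rw [hg, lg_TofS hu]
  have hFrg0 : constantCoeff (map Fr g) = 0 := by rw [cc_map, hg0, map_zero]
  -- (1), (2)
  have e1 : cs (lgS (Fr a) (Fr b)) (cs F g) = C (2 / e) * u := by
    rw [← cs_cs hF0 hg0, hlog, cs_smul hg0, hlg]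
  have e2 : cs (lgS (Fr a) (Fr b)) (cs (map Fr g) (X ^ 2)) = cs (map Fr u) (X ^ 2) := by
    rw [← cs_cs hFrg0 hX2, ← hlg, map_cs Fr hg0, map_lgS]
  have e3 : C (2 / e) * (u - C (e / 2) * cs (map Fr u) (X ^ 2)) =
      cs (lgS (Fr a) (Fr b)) (cs F g) - cs (lgS (Fr a) (Fr b)) (cs (map Fr g) (X ^ 2)) := by
    have h1 : (2 : L) / e * (e / 2) = 1 := by field_simp
    rw [e1, e2, mul_sub, ← mul_assoc, ← map_mul, h1, map_one, one_mul]
  rw [← hg]
  intro n
  induction n using Nat.strong_induction_on with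
  | _ n ih =>
    rcases Nat.eq_zero_or_pos n with hn | hn
    · rw [hn, coeff_zero_eq_constantCoeff_apply, hg0]
      exact O.zero_mem
    -- the truncation
    have hgn : In O (Honda_tr n g) := by
      intro i
      rw [Honda_tr, coeff_mk]
      split_ifs with hi
      · exact ih i hi
      · exact O.zero_mem
    have hgn0 : constantCoeff (Honda_tr n g) = 0 := by
      rw [← coeff_zero_eq_constantCoeff_apply, Honda_tr_lt hn, coeff_zero_eq_constantCoeff_apply,
        hg0]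
    have hFrgn0 : constantCoeff (map Fr (Honda_tr n g)) = 0 := by rw [cc_map, hgn0, map_zero]
    -- (3) the argument F
    obtain ⟨s1, s2⟩ := tSubN L F g (Honda_tr n g) n hn hg0 hgn0
      (fun i hi => (Honda_tr_lt hi g).symm)
    rw [Honda_tr_self, sub_zero, hF1] at s2
    obtain ⟨-, s3⟩ := tSubN L (lgS (Fr a) (Fr b)) (cs F g) (cs F (Honda_tr n g)) n hn
      (by rw [constantCoeff_cs hg0, hF0]) (by rw [constantCoeff_cs hgn0, hF0]) s1
    rw [s2, coeff_one_lgS, one_mul] at s3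
    -- the argument h
    have s4 : ∀ i, i ≤ n → coeff i (cs (map Fr g) (X ^ 2)) =
        coeff i (cs (map Fr (Honda_tr n g)) (X ^ 2)) := by
      intro i hi
      unfold cs
      rw [coeff_subst_X_pow two_ne_zero, coeff_subst_X_pow two_ne_zero, coeff_map, coeff_map,
        Honda_tr_lt (by omega)]
    obtain ⟨-, s5⟩ := tSubN L (lgS (Fr a) (Fr b)) (cs (map Fr g) (X ^ 2))
      (cs (map Fr (Honda_tr n g)) (X ^ 2)) n hn (by rw [constantCoeff_cs hX2, hFrg0])
      (by rw [constantCoeff_cs hX2, hFrgn0]) (fun i hi => s4 i hi.le)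
    rw [s4 n le_rfl, sub_self, mul_zero] at s5
    -- (4)
    have t1 : InM O 2 (cs F (Honda_tr n g) - Honda_tr n g ^ 2) := by
      have h := hFX.cs hgn hgn0
      rwa [cs_sub hgn0, cs_pow hgn0, cs_X hgn0] at h
    have t2 := t1.add (frSq hFr hgn)
    rw [sub_add_sub_cancel] at t2
    have hIX : In O ((X : L⟦X⟧) ^ 2) := In.X.pow 2
    have t3 := lgC hO (hFrO a ha) (hFrO b hb) ((hgn.map hFrO).cs hIX hX2)
      (by rw [constantCoeff_cs hgn0, hF0]) (by rw [constantCoeff_cs hX2, hFrgn0]) t2 n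
    obtain ⟨c, hc, t4⟩ := t3
    -- (5)
    have t5 : 2 / e * coeff n (u - C (e / 2) * cs (map Fr u) (X ^ 2)) =
        coeff n (cs (lgS (Fr a) (Fr b)) (cs F g)) -
          coeff n (cs (lgS (Fr a) (Fr b)) (cs (map Fr g) (X ^ 2))) := by
      rw [← coeff_C_mul, e3, map_sub]
    rw [map_sub] at t4
    have t6 : coeff n g = coeff n (u - C (e / 2) * cs (map Fr u) (X ^ 2)) - e * c := by
      apply mul_left_cancel₀ hpi
      have h6 : 2 / e * (e * c) = 2 * c := by field_simp
      rw [mul_sub, h6]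
      linear_combination (-1 : L) * s3 + s5 - t5 - t4
    rw [t6]
    exact O.sub_mem (hρ n) (O.mul_mem he hc)

end DK.F4
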