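import Pool.Agent.Lib.DK.F4.Defs

/-!
# Theorem DK, part FH: the curve equation, the invariant differential, identification of `T(u)`
-/

set_option autoImplicit false

namespace DK.F4

open PowerSeries DI.F4

/-- `T³ w(T)` is the only solution `W` of `CEq a b T W` with constant coefficient `0`. -/
theorem wSol {R : Type} [CommRing R] (a b : R) {T : R⟦X⟧} (hT : constantCoeff T = 0) :
    CEq a b T (T ^ 3 * cs (wS a b) T) ∧
    ∀ Y Z : R⟦X⟧, constantCoeff Y = 0 → constantCoeff Z = 0 → CEq a b T Y → CEq a b T Z → Y = Z := by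
  refine ⟨?_, fun Y Z hY hZ h1 h2 => ?_⟩
  · have h := congrArg (fun f => cs f T) (wS_eq a b)
    have h3 : cs (wS a b) T = 1 + T * cs (wS a b) T + C a * (T ^ 2 * cs (wS a b) T) +
        C b * (T ^ 4 * cs (wS a b) T ^ 2) := by
      refine h.trans ?_
      simp only [cs_add hT, cs_mul hT, cs_pow hT, cs_X hT, cs_one, cs_C]
    unfold CEq
    linear_combination T ^ 3 * h3
  · have h3 : (Y - Z) * (1 - T - C a * T ^ 2 - C b * (T * (Y + Z))) = 0 := by
      unfold CEq at h1 h2
      linear_combination h1 - h2
    have h4 : IsUnit (1 - T - C a * T ^ 2 - C b * (T * (Y + Z))) := by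
      rw [isUnit_iff_constantCoeff]
      simp [hT]
    exact sub_eq_zero.1 ((h4.mul_left_eq_zero).1 h3)

theorem wS_der_eq {R : Type} [CommRing R] (a b : R) :
    derivative R (wS a b) = wS a b + X * derivative R (wS a b) +
      C a * (2 * X * wS a b + X ^ 2 * derivative R (wS a b)) +
      C b * (4 * X ^ 3 * wS a b ^ 2 + 2 * X ^ 4 * wS a b * derivative R (wS a b)) := by
  have h1 := congrArg (derivative R) (wS_eq a b)
  simp only [map_add, Derivation.leibniz, Derivation.leibniz_pow, Derivation.map_one_eq_zero,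
    smul_eq_mul, nsmul_eq_mul, derivative_C] at h1
  have hX : derivative R (X : R⟦X⟧) = 1 := derivative_X
  rw [hX] at h1
  refine h1.trans ?_
  push_cast
  ring

theorem wDer {R : Type} [CommRing R] (a b : R) :
    2 * wS a b + X * derivative R (wS a b) = wS a b * (2 - X) * omS a b := by
  have h1 := wS_der_eq a b
  have h2 := PS_omS a b
  have h4 : (2 * wS a b + X * derivative R (wS a b)) * PS a b = wS a b * (2 - X) := by
    unfold PS
    linear_combination X * h1
  linear_combination (-(2 * wS a b + X * derivative R (wS a b))) * h2 + omS a b * h4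

theorem star {R : Type} [CommRing R] (a b : R) {T : R⟦X⟧} (hT : constantCoeff T = 0) :
    derivative R T * (T ^ 3 * cs (wS a b) T) - T * derivative R (T ^ 3 * cs (wS a b) T) =
      (T - 2) * (T ^ 3 * cs (wS a b) T) * (cs (omS a b) T * derivative R T) := by
  have h1 := congrArg (fun f => cs f T) (wDer a b)
  simp only [cs_add hT, cs_mul hT, cs_sub hT, cs_X hT] at h1
  have h0 : cs (2 : R⟦X⟧) T = 2 := cs_ofNat T 2
  rw [h0] at h1
  have h2 : derivative R (T ^ 3 * cs (wS a b) T) =
      3 * T ^ 2 * derivative R T * cs (wS a b) T +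
        T ^ 3 * (cs (derivative R (wS a b)) T * derivative R T) := by
    rw [Derivation.leibniz, Derivation.leibniz_pow, d_cs hT]
    simp only [smul_eq_mul, nsmul_eq_mul]
    push_cast
    ring
  rw [h2]
  linear_combination (-(derivative R T * T ^ 3)) * h1

/-- A point `(T, W)` of the curve whose differential is `c om`: `lg(T) = u`. -/
theorem lg_of_diff {L : Type} [Field L] [CharZero L] {a b : L} {T W u : L⟦X⟧}
    (hT : constantCoeff T = 0) (hW : constantCoeff W = 0) (hu : constantCoeff u = 0) (hT0 : T ≠ 0)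
    (hE : CEq a b T W)
    (hD : derivative L T * W - T * derivative L W = (T - 2) * W * derivative L u) :
    cs (lgS a b) T = u ∧ W = T ^ 3 * cs (wS a b) T := by
  obtain ⟨h1, h2⟩ := wSol a b hT
  have hc : constantCoeff (T ^ 3 * cs (wS a b) T) = 0 := by
    rw [map_mul, map_pow, hT, zero_pow (by norm_num), zero_mul]
  have hWe : W = T ^ 3 * cs (wS a b) T := h2 W _ hW hc hE h1
  have hS := star a b hT
  rw [← hWe] at hS
  have hw : constantCoeff (cs (wS a b) T) = 1 := by
    rw [constantCoeff_cs hT, wS_const]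
  have hw0 : cs (wS a b) T ≠ 0 := by
    intro h
    rw [h, map_zero] at hw
    exact zero_ne_one hw
  have hW0 : W ≠ 0 := by
    rw [hWe]
    exact mul_ne_zero (pow_ne_zero 3 hT0) hw0
  have hT2 : T - 2 ≠ 0 := by
    intro h
    have h3 := congrArg constantCoeff h
    rw [map_sub, hT, map_zero, map_ofNat, zero_sub, neg_eq_zero] at h3
    exact two_ne_zero h3
  have hd : derivative L u = cs (omS a b) T * derivative L T := by
    have h3 : (T - 2) * W * derivative L u = (T - 2) * W * (cs (omS a b) T * derivative L T) := by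
      rw [← hD, ← hS]
    exact mul_left_cancel₀ (mul_ne_zero hT2 hW0) h3
  refine ⟨derivative.ext ?_ ?_, hWe⟩
  · rw [d_cs hT, d_lgS, hd]
  · rw [constantCoeff_cs hT, lgS_const, hu]

/-- **Ident.**  Identification of the analytic series. -/
theorem ident {L : Type} [Field L] [CharZero L] {a b : L} {T W u : L⟦X⟧}
    (hT : constantCoeff T = 0) (hW : constantCoeff W = 0) (hu : constantCoeff u = 0) (hT0 : T ≠ 0)
    (hE : CEq a b T W)
    (hD : derivative L T * W - T * derivative L W = (T - 2) * W * derivative L u) :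
    T = TofS a b u ∧ W = T ^ 3 * cs (wS a b) T :=
  ⟨eq_TofS hT (lg_of_diff hT hW hu hT0 hE hD).1, (lg_of_diff hT hW hu hT0 hE hD).2⟩

end DK.F4
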