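import Pool.Agent.Lib.DI.F4.Bas

/-!
# Theorem DK, part FH, generic part: the curves `y² + xy = x³ + a x² + b x`

`T = -x/y`, `W = -1/y`, so `x = T/W`, `y = -1/W` and `W = T³ + T W + a T² W + b T W²` (`CEq a b T W`).
`W = X³ w`, `w = wS a b`.  The composition `cs f g = f ∘ g` and its calculus, `In`, `InM` are in `DI/F4`.
-/

set_option autoImplicit false

namespace DK.F4

open PowerSeries DI.F4

/-- the equation of the curve in the coordinates `T`, `W` -/
def CEq {R : Type} [CommRing R] (a b : R) (T W : R⟦X⟧) : Prop :=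
  W = T ^ 3 + T * W + C a * (T ^ 2 * W) + C b * (T * W ^ 2)

/-! ## The series `w` -/

section w

variable {R : Type} [CommRing R] (a b : R)

private noncomputable def ph (y : R⟦X⟧) : R⟦X⟧ :=
  1 + X * y + C a * (X ^ 2 * y) + C b * (X ^ 4 * y ^ 2)

private noncomputable def sq : ℕ → R⟦X⟧
  | 0 => 0
  | k + 1 => ph a b (sq k)

private theorem ph_sub (y z : R⟦X⟧) : ph a b y - ph a b z =
    X * ((y - z) * (1 + C a * X + C b * (X ^ 3 * (y + z)))) := by
  unfold ph
  ring

private theorem sq_dvd (k : ℕ) : (X : R⟦X⟧) ^ k ∣ sq a b (k + 1) - sq a b k := by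
  induction k with
  | zero => exact ⟨_, (one_mul _).symm⟩
  | succ k ih =>
    obtain ⟨c, hc⟩ := ih
    change X ^ (k + 1) ∣ ph a b (sq a b (k + 1)) - ph a b (sq a b k)
    rw [ph_sub, hc]
    exact ⟨c * (1 + C a * X + C b * (X ^ 3 * (sq a b (k + 1) + sq a b k))), by ring⟩

private theorem sq_coeff {n k : ℕ} (h : n < k) : coeff n (sq a b k) = coeff n (sq a b (n + 1)) := by
  obtain ⟨m, rfl⟩ : ∃ m, k = n + 1 + m := ⟨k - (n + 1), by omega⟩
  clear h
  induction m with
  | zero => rfl
  | succ m ih =>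
    rw [← ih]
    obtain ⟨c, hc⟩ := sq_dvd a b (n + 1 + m)
    have h1 : sq a b (n + 1 + (m + 1)) = sq a b (n + 1 + m) + X ^ (n + 1 + m) * c := by
      rw [← hc]
      ring_nf
    rw [h1, map_add, coeff_X_pow_mul', if_neg (by omega), add_zero]

/-- the series `w` of the curve with the coefficients `a`, `b` -/
noncomputable def wS : R⟦X⟧ := mk fun n => coeff n (sq a b (n + 1))

private theorem wS_dvd (k : ℕ) : (X : R⟦X⟧) ^ k ∣ wS a b - sq a b k := by
  rw [X_pow_dvd_iff]
  intro n hn
  rw [map_sub, wS, coeff_mk, sq_coeff a b hn, sub_self]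

theorem wS_eq : wS a b = 1 + X * wS a b + C a * (X ^ 2 * wS a b) + C b * (X ^ 4 * wS a b ^ 2) := by
  have h1 : ∀ k : ℕ, (X : R⟦X⟧) ^ k ∣ wS a b - ph a b (wS a b) := by
    intro k
    have h2 : (X : R⟦X⟧) ^ k ∣ wS a b - sq a b (k + 1) :=
      (pow_dvd_pow X (Nat.le_succ k)).trans (wS_dvd a b (k + 1))
    have h3 : (X : R⟦X⟧) ^ k ∣ ph a b (wS a b) - ph a b (sq a b k) := by
      obtain ⟨c, hc⟩ := wS_dvd a b k
      rw [ph_sub, hc]
      exact ⟨X * (c * (1 + C a * X + C b * (X ^ 3 * (wS a b + sq a b k)))), by ring⟩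
    have h4 : wS a b - ph a b (wS a b) =
        (wS a b - sq a b (k + 1)) - (ph a b (wS a b) - ph a b (sq a b k)) := by
      change wS a b - ph a b (wS a b) =
        (wS a b - ph a b (sq a b k)) - (ph a b (wS a b) - ph a b (sq a b k))
      ring
    rw [h4]
    exact dvd_sub h2 h3
  have h5 : wS a b - ph a b (wS a b) = 0 := by
    ext n
    have h6 := (X_pow_dvd_iff).1 (h1 (n + 1)) n (Nat.lt_succ_self n)
    rw [h6, map_zero]
  exact sub_eq_zero.1 h5

theorem wS_const : constantCoeff (wS a b) = 1 := by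
  have h := congrArg constantCoeff (wS_eq a b)
  simpa using h

/-- uniqueness -/
theorem wS_uniq {y : R⟦X⟧} (h : y = 1 + X * y + C a * (X ^ 2 * y) + C b * (X ^ 4 * y ^ 2)) :
    y = wS a b := by
  have h1 := wS_eq a b
  have h2 : (y - wS a b) * (1 - X * (1 + C a * X + C b * (X ^ 3 * (y + wS a b)))) = 0 := by
    linear_combination h - h1
  have h3 : IsUnit (1 - X * (1 + C a * X + C b * (X ^ 3 * (y + wS a b)))) := by
    rw [isUnit_iff_constantCoeff]
    simp
  exact sub_eq_zero.1 ((h3.mul_left_eq_zero).1 h2)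

theorem map_wS {S : Type} [CommRing S] (φ : R →+* S) : map φ (wS a b) = wS (φ a) (φ b) := by
  apply wS_uniq
  have h := congrArg (map φ) (wS_eq a b)
  simpa only [map_add, map_mul, map_pow, map_one, map_X, map_C] using h

/-- `P = 1 - X - a X² - 2 b X⁴ w` -/
noncomputable def PS : R⟦X⟧ := 1 - X - C a * X ^ 2 - 2 * (C b * (X ^ 4 * wS a b))

theorem PS_const : constantCoeff (PS a b) = 1 := by
  simp [PS]

/-- the invariant differential `om = 1 / P` -/
noncomputable def omS : R⟦X⟧ := invOfUnit (PS a b) 1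

theorem PS_omS : PS a b * omS a b = 1 :=
  mul_invOfUnit (PS a b) 1 (by rw [PS_const, Units.val_one])

theorem omS_const : constantCoeff (omS a b) = 1 := by
  have h := congrArg constantCoeff (PS_omS a b)
  rwa [map_mul, PS_const, one_mul, map_one] at h

theorem map_PS {S : Type} [CommRing S] (φ : R →+* S) : map φ (PS a b) = PS (φ a) (φ b) := by
  simp only [PS, map_sub, map_mul, map_pow, map_one, map_X, map_C, map_ofNat, map_wS]

theorem map_omS {S : Type} [CommRing S] (φ : R →+* S) : map φ (omS a b) = omS (φ a) (φ b) := by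
  have h1 := congrArg (map φ) (PS_omS a b)
  rw [map_mul, map_PS, map_one] at h1
  have h2 := PS_omS (φ a) (φ b)
  calc map φ (omS a b) = map φ (omS a b) * (PS (φ a) (φ b) * omS (φ a) (φ b)) := by
        rw [h2, mul_one]
    _ = (PS (φ a) (φ b) * map φ (omS a b)) * omS (φ a) (φ b) := by ring
    _ = omS (φ a) (φ b) := by rw [h1, one_mul]

end w

/-! ## The logarithm -/

section lg

variable {L : Type} [Field L] (a b : L)

/-- the logarithm `∑ c_m X^m / m` of the curve, `c_m` = coefficient of `X^(m-1)` in `om` -/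
noncomputable def lgS : L⟦X⟧ := mk fun m => coeff (m - 1) (omS a b) / m

theorem lgS_const : constantCoeff (lgS a b) = 0 := by
  rw [← coeff_zero_eq_constantCoeff_apply, lgS, coeff_mk, Nat.cast_zero, div_zero]

theorem coeff_one_lgS : coeff 1 (lgS a b) = 1 := by
  rw [lgS, coeff_mk, Nat.cast_one, div_one, Nat.sub_self, coeff_zero_eq_constantCoeff_apply,
    omS_const]

theorem d_lgS [CharZero L] : derivative L (lgS a b) = omS a b := by
  ext n
  rw [coeff_derivative, lgS, coeff_mk, Nat.add_sub_cancel]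
  have h : ((n : L) + 1) ≠ 0 := by exact_mod_cast Nat.succ_ne_zero n
  push_cast
  field_simp

theorem coeff_one_lgS_unit : IsUnit (coeff 1 (lgS a b)) := by
  rw [coeff_one_lgS]
  exact isUnit_one

/-- the compositional inverse of `lg` -/
noncomputable def exS : L⟦X⟧ := substInvOfIsUnit (lgS a b) (coeff_one_lgS_unit a b)

theorem exS_const : constantCoeff (exS a b) = 0 := constantCoeff_substInvOfIsUnit _ _

theorem lg_exS : cs (lgS a b) (exS a b) = X :=
  subst_substInvOfIsUnit_right (lgS a b) (lgS_const a b) _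

theorem ex_lgS : cs (exS a b) (lgS a b) = X :=
  subst_substInvOfIsUnit_left (lgS a b) (lgS_const a b) _

/-- `T(u)`: the series with `lg(T(u)) = u` -/
noncomputable def TofS (u : L⟦X⟧) : L⟦X⟧ := cs (exS a b) u

variable {a b}

theorem TofS_const {u : L⟦X⟧} (hu : constantCoeff u = 0) : constantCoeff (TofS a b u) = 0 := by
  rw [TofS, constantCoeff_cs hu, exS_const]

theorem lg_TofS {u : L⟦X⟧} (hu : constantCoeff u = 0) : cs (lgS a b) (TofS a b u) = u := by
  rw [TofS, ← cs_cs (exS_const a b) hu, lg_exS, cs_X hu]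

theorem TofS_lg {T : L⟦X⟧} (hT : constantCoeff T = 0) : TofS a b (cs (lgS a b) T) = T := by
  rw [TofS, ← cs_cs (lgS_const a b) hT, ex_lgS, cs_X hT]

/-- a series `T` with `lg(T) = u` is `T(u)` -/
theorem eq_TofS {T u : L⟦X⟧} (hT : constantCoeff T = 0) (h : cs (lgS a b) T = u) :
    T = TofS a b u := by
  rw [← h, TofS_lg hT]

theorem coeff_one_TofS {u : L⟦X⟧} (hu : constantCoeff u = 0) :
    coeff 1 (TofS a b u) = coeff 1 u := by
  have h := congrArg (coeff 1) (lg_TofS (a := a) (b := b) hu)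
  rwa [coeff_one_cs (TofS_const hu), coeff_one_lgS, one_mul] at h

variable (a b) in
theorem map_lgS {L' : Type} [Field L'] (φ : L →+* L') : map φ (lgS a b) = lgS (φ a) (φ b) := by
  ext n
  rw [coeff_map, lgS, lgS, coeff_mk, coeff_mk, map_div₀, map_natCast, ← coeff_map, map_omS]

end lg

/-! ## Integrality -/

section int

variable {L : Type} [Field L] {O : Subring L} {a b : L}

theorem In.wS (ha : a ∈ O) (hb : b ∈ O) : In O (wS a b) := fun n => by
  have h := congrArg (coeff n) (map_wS (⟨a, ha⟩ : O) ⟨b, hb⟩ O.subtype)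
  rw [coeff_map] at h
  have h1 : DK.F4.wS a b = DK.F4.wS (O.subtype ⟨a, ha⟩) (O.subtype ⟨b, hb⟩) := rfl
  rw [h1, ← h]
  exact Subtype.prop _

theorem In.omS (ha : a ∈ O) (hb : b ∈ O) : In O (omS a b) := fun n => by
  have h := congrArg (coeff n) (map_omS (⟨a, ha⟩ : O) ⟨b, hb⟩ O.subtype)
  rw [coeff_map] at h
  have h1 : DK.F4.omS a b = DK.F4.omS (O.subtype ⟨a, ha⟩) (O.subtype ⟨b, hb⟩) := rfl
  rw [h1, ← h]
  exact Subtype.prop _

end int

end DK.F4
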