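import Pool.Agent.Lib.DK.F4.Bas

/-!
# Theorem DK, part FH: the isogeny `𝔭` in the parameter `T`

Parameters: `ka = 1 + 4 k`, `e = 1 + 2 c`, `d (1 + 4 h)² = h`, `ka1 = 1 + 4 l`, `ka1 (1 + 4 h)² = e² ka`.
The curve `(aP k d, bP k d)`: `a = k + 4 d ka`, `b = d ka²`; its isogenous curve has the parameters
`(l, h²)`.
-/

set_option autoImplicit false

namespace DK.F4

open PowerSeries DI.F4

/-- `a₂` -/
def aP {R : Type} [CommRing R] (k d : R) : R := k + 4 * d * (1 + 4 * k)

/-- `a₄` -/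
def bP {R : Type} [CommRing R] (k d : R) : R := d * (1 + 4 * k) ^ 2

/-- the relations -/
structure Par {R : Type} [CommRing R] (k d h c l : R) : Prop where
  hh : d * (1 + 4 * h) ^ 2 = h
  kk : (1 + 4 * l) * (1 + 4 * h) ^ 2 = (1 + 2 * c) ^ 2 * (1 + 4 * k)

theorem Par.map {R S : Type} [CommRing R] [CommRing S] (φ : R →+* S) {k d h c l : R}
    (hp : Par k d h c l) : Par (φ k) (φ d) (φ h) (φ c) (φ l) := by
  have h1 := congrArg φ hp.hh
  have h2 := congrArg φ hp.kk
  constructor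
  · simpa only [map_mul, map_pow, map_add, map_one, map_ofNat] using h1
  · simpa only [map_mul, map_pow, map_add, map_one, map_ofNat] using h2

theorem map_aP {R S : Type} [CommRing R] [CommRing S] (φ : R →+* S) (k d : R) :
    φ (aP k d) = aP (φ k) (φ d) := by
  simp only [aP, map_mul, map_add, map_one, map_ofNat]

theorem map_bP {R S : Type} [CommRing R] [CommRing S] (φ : R →+* S) (k d : R) :
    φ (bP k d) = bP (φ k) (φ d) := by
  simp only [bP, map_mul, map_add, map_pow, map_one, map_ofNat]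

/-! ## The algebra -/

section alg

variable {A : Type} [CommRing A]

theorem alg_sq {k d h c l t z : A} (hh : d * (1 + 4 * h) ^ 2 = h)
    (kk : (1 + 4 * l) * (1 + 4 * h) ^ 2 = (1 + 2 * c) ^ 2 * (1 + 4 * k))
    (ht : t * (1 + 4 * h) = 1) :
    (1 + 2 * c) ^ 2 * (1 + 4 * (d * (1 + 4 * k) * z)) +
        4 * (h ^ 2 * (1 + 4 * l)) * z * (4 + (1 + 4 * k) * z) =
      (1 + 2 * c) ^ 2 * (1 + 2 * d * (1 + 4 * k) * (1 + 4 * h) * z) ^ 2 ∧
    4 * (1 + 2 * c) ^ 2 * (1 + 4 * (d * (1 + 4 * k) * z)) + (1 + 4 * l) * z * (4 + (1 + 4 * k) * z) =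
      (1 + 2 * c) ^ 2 * (2 + (1 + 4 * k) * t * z) ^ 2 ∧
    2 + (1 + 4 * k) * z + 2 * (d * (1 + 4 * k) ^ 2 * z ^ 2) =
      (1 + 2 * d * (1 + 4 * k) * (1 + 4 * h) * z) * (2 + (1 + 4 * k) * t * z) := by
  have k1 : 1 + 4 * l = (1 + 2 * c) ^ 2 * (1 + 4 * k) * t ^ 2 := by
    linear_combination t ^ 2 * kk - (1 + 4 * l) * (t * (1 + 4 * h) + 1) * ht
  have d1 : t + 4 * d * (1 + 4 * h) = 1 := by
    linear_combination (1 - 4 * d * (1 + 4 * h)) * ht + 4 * t * hh
  have h1 : h * t = d * (1 + 4 * h) := by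
    linear_combination (-t) * hh + d * (1 + 4 * h) * ht
  have hm : h ^ 2 * (1 + 4 * l) = (1 + 2 * c) ^ 2 * (1 + 4 * k) * (d * (1 + 4 * h)) ^ 2 := by
    linear_combination h ^ 2 * k1 + (1 + 2 * c) ^ 2 * (1 + 4 * k) * (h * t + d * (1 + 4 * h)) * h1
  refine ⟨?_, ?_, ?_⟩
  · linear_combination (16 * z + 4 * (1 + 4 * k) * z ^ 2) * hm +
      16 * (1 + 2 * c) ^ 2 * d * (1 + 4 * k) * z * hh
  · linear_combination (4 * z + (1 + 4 * k) * z ^ 2) * k1 + 4 * (1 + 2 * c) ^ 2 * (1 + 4 * k) * z *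
      (4 * t ^ 2 * hh + (t - 4 * d * (t * (1 + 4 * h) + 1)) * ht)
  · linear_combination (-((1 + 4 * k) * z)) * d1 - 2 * d * (1 + 4 * k) ^ 2 * z ^ 2 * ht

variable [IsDomain A]

theorem alg_star {E a b c q y x w z : A} (h4 : (4 : A) ≠ 0) (hz : z = x ^ 2 * w)
    (h0 : 2 * y = E * (2 - x) * q + x * a * b) (h1 : (2 - x) ^ 2 * w = a * b)
    (h2 : 4 * c + E ^ 2 * z * a * b = E ^ 4 * q ^ 2) :
    E ^ 2 * w * y * (y - x * a * b) = a * b * c := by
  apply mul_left_cancel₀ h4
  have e1 : 4 * (y * (y - x * a * b)) = E ^ 2 * (2 - x) ^ 2 * q ^ 2 - (x * a * b) ^ 2 := by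
    linear_combination (2 * y - 2 * (x * a * b) + (E * (2 - x) * q + x * a * b)) * h0
  rw [hz] at h2
  linear_combination E ^ 2 * w * e1 + E ^ 4 * q ^ 2 * h1 - a * b * h2

theorem alg_curve {F G y x a b z q E m n u v : A} (hy : y ≠ 0) (hE : E ≠ 0)
    (hF : F * y = x * a * b) (hG : G * (E ^ 2 * y) = x * z * b ^ 2)
    (e0 : 2 * y = E * (2 - x) * q + x * a * b) (hz : z * (2 - x) ^ 2 = x ^ 2 * (a * b))
    (p1 : E ^ 2 * a + 4 * (n * m) * z * b = E ^ 2 * u ^ 2)
    (p2 : 4 * E ^ 2 * a + m * z * b = E ^ 2 * v ^ 2) (p3 : q = u * v) :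
    (F - 2) ^ 2 * G = F * (F + 4 * (n * m) * G) * (4 * F + m * G) := by
  have f1 : (F - 2) * y = -(E * (2 - x) * q) := by linear_combination hF - e0
  have f2 : (F + 4 * (n * m) * G) * (E ^ 2 * y) = x * b * (E ^ 2 * u ^ 2) := by
    linear_combination E ^ 2 * hF + 4 * n * m * hG + x * b * p1
  have f3 : (4 * F + m * G) * (E ^ 2 * y) = x * b * (E ^ 2 * v ^ 2) := by
    linear_combination 4 * E ^ 2 * hF + m * hG + x * b * p2
  have g1 : (F - 2) ^ 2 * G * (E ^ 4 * y ^ 3) = E ^ 4 * q ^ 2 * x ^ 3 * a * b ^ 3 := by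
    calc (F - 2) ^ 2 * G * (E ^ 4 * y ^ 3) = E ^ 2 * ((F - 2) * y) ^ 2 * (G * (E ^ 2 * y)) := by ring
      _ = E ^ 2 * (E * (2 - x) * q) ^ 2 * (x * z * b ^ 2) := by rw [f1, hG]; ring
      _ = E ^ 4 * q ^ 2 * x ^ 3 * a * b ^ 3 := by
          linear_combination E ^ 4 * q ^ 2 * x * b ^ 2 * hz
  have g2 : F * (F + 4 * (n * m) * G) * (4 * F + m * G) * (E ^ 4 * y ^ 3) =
      E ^ 4 * q ^ 2 * x ^ 3 * a * b ^ 3 := by
    calc F * (F + 4 * (n * m) * G) * (4 * F + m * G) * (E ^ 4 * y ^ 3) =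
        (F * y) * ((F + 4 * (n * m) * G) * (E ^ 2 * y)) * ((4 * F + m * G) * (E ^ 2 * y)) := by ring
      _ = x * a * b * (x * b * (E ^ 2 * u ^ 2)) * (x * b * (E ^ 2 * v ^ 2)) := by rw [hF, f2, f3]
      _ = E ^ 4 * q ^ 2 * x ^ 3 * a * b ^ 3 := by rw [p3]; ring
  exact mul_right_cancel₀ (mul_ne_zero (pow_ne_zero 4 hE) (pow_ne_zero 3 hy)) (g1.trans g2.symm)

/-- the differential; `k = ka`, `d` -/
theorem alg_der {F G F' G' y x w a b z z' q om E p k d : A} (hy : y ≠ 0) (hE : E ≠ 0)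
    (hM : z * b ≠ 0) (hp : p * E = 2) (ha : a = 1 + 4 * (d * k * z)) (hb : b = 4 + k * z)
    (hq : q = 2 + k * z + 2 * (d * k ^ 2 * z ^ 2)) (hz : z = x ^ 2 * w)
    (hz' : z' = x * w * (2 - x) * om) (hF : F * y = x * a * b)
    (hG : G * (E ^ 2 * y) = x * z * b ^ 2) (e0 : 2 * y = E * (2 - x) * q + x * a * b)
    (hD : F * (z * b) = G * (E ^ 2 * a) →
      F' * (z * b) + F * (z' * (4 + 2 * (k * z))) = G' * (E ^ 2 * a) +
        G * (E ^ 2 * (4 * (d * k * z')))) :
    F' * G - F * G' = (F - 2) * G * (p * om) := by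
  have i2 : F * (z * b) = G * (E ^ 2 * a) := by
    apply mul_right_cancel₀ hy
    linear_combination z * b * hF - a * hG
  have i3 := hD i2
  have f1 : (F - 2) * y = -(E * (2 - x) * q) := by linear_combination hF - e0
  have i1 : E ^ 2 * (4 * (d * k * z')) * (z * b) - E ^ 2 * a * (z' * (4 + 2 * (k * z))) =
      -(2 * E ^ 2 * z' * q) := by
    rw [ha, hb, hq]
    ring
  have i4 : (F' * G - F * G') * (z * b) ^ 2 = G ^ 2 * (-(2 * E ^ 2 * z' * q)) := by
    rw [← i1]
    linear_combination G * (z * b) * i3 - (G * (z' * (4 + 2 * (k * z))) + G' * (z * b)) * i2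
  have i5 : (F' * G - F * G') * ((z * b) ^ 2 * y * E) =
      (F - 2) * G * (p * om) * ((z * b) ^ 2 * y * E) := by
    calc (F' * G - F * G') * ((z * b) ^ 2 * y * E) =
        (F' * G - F * G') * (z * b) ^ 2 * (y * E) := by ring
      _ = -(2 * z' * q * E * G * (G * (E ^ 2 * y))) := by rw [i4]; ring
      _ = -(2 * z' * q * E * G * (x * z * b ^ 2)) := by rw [hG]
      _ = -(2 * q * E * G * (2 - x) * om * (x ^ 2 * w) * z * b ^ 2) := by rw [hz']; ring
      _ = ((F - 2) * y) * (p * E) * (G * om * (z * b) ^ 2) := by rw [f1, hp, ← hz]; ring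
      _ = (F - 2) * G * (p * om) * ((z * b) ^ 2 * y * E) := by ring
  exact mul_right_cancel₀ (mul_ne_zero (mul_ne_zero (pow_ne_zero 2 hM) hy) hE) i5

end alg

/-! ## The series -/

section ser

variable {R : Type} [CommRing R] (k d h c l : R)

/-- `z = X² w = W/T` -/
noncomputable def zS : R⟦X⟧ := X ^ 2 * wS (aP k d) (bP k d)

/-- `1 + 4 d ka z` -/
noncomputable def aS : R⟦X⟧ := 1 + 4 * (C d * (1 + 4 * C k) * zS k d)

/-- `4 + ka z` -/
noncomputable def bS : R⟦X⟧ := 4 + (1 + 4 * C k) * zS k d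

/-- `2 + ka z + 2 d ka² z²` -/
noncomputable def qS : R⟦X⟧ := 2 + (1 + 4 * C k) * zS k d + 2 * (C d * (1 + 4 * C k) ^ 2 * zS k d ^ 2)

/-- `(1 + 2 c - c X) q + X + 8 d ka X z + d ka² X z²` -/
noncomputable def yS : R⟦X⟧ := (1 + 2 * C c - C c * X) * qS k d + X +
  8 * (C d * (1 + 4 * C k) * X * zS k d) + C d * (1 + 4 * C k) ^ 2 * X * zS k d ^ 2

/-- `e⁴ a² + a₂' e² z a b + a₄' z² b²` -/
noncomputable def cS : R⟦X⟧ := (1 + 2 * C c) ^ 4 * aS k d ^ 2 +
  (C l + 4 * (C h ^ 2 * (1 + 4 * C l))) * (1 + 2 * C c) ^ 2 * zS k d * aS k d * bS k d +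
  C h ^ 2 * (1 + 4 * C l) ^ 2 * zS k d ^ 2 * bS k d ^ 2

theorem C_aP : (C (aP k d) : R⟦X⟧) = C k + 4 * (C d * (1 + 4 * C k)) := by
  simp only [aP, map_add, map_mul, map_ofNat, map_one]
  ring

theorem C_bP : (C (bP k d) : R⟦X⟧) = C d * (1 + 4 * C k) ^ 2 := by
  simp only [bP, map_add, map_mul, map_pow, map_ofNat, map_one]

theorem cc_two : constantCoeff (2 : R⟦X⟧) = 2 := map_ofNat _ _

theorem cc_four : constantCoeff (4 : R⟦X⟧) = 4 := map_ofNat _ _

theorem zS_const : constantCoeff (zS k d) = 0 := by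
  simp [zS]

theorem bS_const : constantCoeff (bS k d) = 4 := by
  rw [bS, map_add, map_mul, zS_const, mul_zero, add_zero, cc_four]

theorem aS_const : constantCoeff (aS k d) = 1 := by
  simp [aS, zS_const]

theorem yS_const : constantCoeff (yS k d c) = 2 * (1 + 2 * c) := by
  simp only [yS, qS, map_add, map_sub, map_mul, map_pow, zS_const, constantCoeff_X, constantCoeff_C,
    map_one, cc_two]
  ring

theorem cS_const : constantCoeff (cS k d h c l) = (1 + 2 * c) ^ 4 := by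
  simp only [cS, map_add, map_mul, map_pow, zS_const, constantCoeff_C, aS_const,
    map_one, cc_two]
  ring

theorem zS_eq : wS (aP k d) (bP k d) = 1 + X * wS (aP k d) (bP k d) +
    (C k + 4 * (C d * (1 + 4 * C k))) * zS k d + C d * (1 + 4 * C k) ^ 2 * zS k d ^ 2 := by
  have h1 := wS_eq (aP k d) (bP k d)
  rw [C_aP, C_bP] at h1
  unfold zS
  linear_combination h1

/-- `(2 - X)² w = a b` -/
theorem two_sub_X : (2 - X) ^ 2 * wS (aP k d) (bP k d) = aS k d * bS k d := by
  have h1 := zS_eq k d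
  have hz : zS k d = X ^ 2 * wS (aP k d) (bP k d) := rfl
  unfold aS bS
  linear_combination 4 * h1 - hz

/-- `2 y = e (2 - X) q + X a b` -/
theorem two_yS : 2 * yS k d c = (1 + 2 * C c) * (2 - X) * qS k d + X * aS k d * bS k d := by
  unfold yS qS aS bS
  ring

variable {k d h c l}

/-- the factorization of `q`: the squares in the isogenous curve -/
theorem four_cS {t : R} (hp : Par k d h c l) (ht : t * (1 + 4 * h) = 1) :
    4 * cS k d h c l + (1 + 2 * C c) ^ 2 * zS k d * aS k d * bS k d =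
      (1 + 2 * C c) ^ 4 * qS k d ^ 2 := by
  have h1 := congrArg (C (R := R)) hp.hh
  have h2 := congrArg (C (R := R)) hp.kk
  have h3 := congrArg (C (R := R)) ht
  simp only [map_add, map_mul, map_pow, map_ofNat, map_one] at h1 h2 h3
  obtain ⟨p1, p2, p3⟩ := alg_sq (z := zS k d) h1 h2 h3
  have p1' : (1 + 2 * C c) ^ 2 * aS k d + 4 * (C h ^ 2 * (1 + 4 * C l)) * zS k d * bS k d =
      (1 + 2 * C c) ^ 2 * (1 + 2 * C d * (1 + 4 * C k) * (1 + 4 * C h) * zS k d) ^ 2 := p1
  have p2' : 4 * (1 + 2 * C c) ^ 2 * aS k d + (1 + 4 * C l) * zS k d * bS k d =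
      (1 + 2 * C c) ^ 2 * (2 + (1 + 4 * C k) * C t * zS k d) ^ 2 := p2
  have p3' : qS k d = (1 + 2 * C d * (1 + 4 * C k) * (1 + 4 * C h) * zS k d) *
      (2 + (1 + 4 * C k) * C t * zS k d) := p3
  have e1 : 4 * cS k d h c l + (1 + 2 * C c) ^ 2 * zS k d * aS k d * bS k d =
      ((1 + 2 * C c) ^ 2 * aS k d + 4 * (C h ^ 2 * (1 + 4 * C l)) * zS k d * bS k d) *
      (4 * (1 + 2 * C c) ^ 2 * aS k d + (1 + 4 * C l) * zS k d * bS k d) := by
    unfold cS
    ring
  rw [e1, p1', p2', p3']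
  ring

end ser

section field

variable {L : Type} [Field L] (k d h c l : L)

/-- the parameter `T'` of the isogenous curve as a series in the parameter `T` -/
noncomputable def FS : L⟦X⟧ := (1 + 2 * C c) ^ 2 * X * wS (aP k d) (bP k d) *
  (yS k d c - X * aS k d * bS k d) * (cS k d h c l)⁻¹

/-- `W'` -/
noncomputable def GS : L⟦X⟧ := X * zS k d * bS k d ^ 2 * ((1 + 2 * C c) ^ 2 * yS k d c)⁻¹

theorem FS_const : constantCoeff (FS k d h c l) = 0 := by
  simp [FS]

theorem GS_const : constantCoeff (GS k d c) = 0 := by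
  simp [GS]

variable {k d h c l}

theorem CE_ne (he : (1 + 2 * c : L) ≠ 0) : (1 + 2 * C c : L⟦X⟧) ≠ 0 := by
  intro h1
  have h2 := congrArg constantCoeff h1
  rw [map_add, map_mul, map_one, constantCoeff_C, cc_two, map_zero] at h2
  exact he h2

theorem yS_ne [CharZero L] (he : (1 + 2 * c : L) ≠ 0) : yS k d c ≠ 0 := by
  intro h1
  have h2 := yS_const k d c
  rw [h1, map_zero] at h2
  exact mul_ne_zero two_ne_zero he h2.symm

theorem cS_ne (he : (1 + 2 * c : L) ≠ 0) : cS k d h c l ≠ 0 := by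
  intro h1
  have h2 := cS_const k d h c l
  rw [h1, map_zero] at h2
  exact pow_ne_zero 4 he h2.symm

theorem FS_cS (he : (1 + 2 * c : L) ≠ 0) : FS k d h c l * cS k d h c l =
    (1 + 2 * C c) ^ 2 * X * wS (aP k d) (bP k d) * (yS k d c - X * aS k d * bS k d) := by
  have h1 : cS k d h c l * (cS k d h c l)⁻¹ = 1 := PowerSeries.mul_inv_cancel _ (by
    rw [cS_const]
    exact pow_ne_zero 4 he)
  unfold FS
  linear_combination ((1 + 2 * C c) ^ 2 * X * wS (aP k d) (bP k d) *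
    (yS k d c - X * aS k d * bS k d)) * h1

theorem GS_yS [CharZero L] (he : (1 + 2 * c : L) ≠ 0) :
    GS k d c * ((1 + 2 * C c) ^ 2 * yS k d c) = X * zS k d * bS k d ^ 2 := by
  have h1 : ((1 + 2 * C c) ^ 2 * yS k d c) * ((1 + 2 * C c) ^ 2 * yS k d c)⁻¹ = 1 :=
    PowerSeries.mul_inv_cancel _ (by
      rw [map_mul, yS_const, map_pow, map_add, map_mul, map_one, constantCoeff_C, cc_two]
      exact mul_ne_zero (pow_ne_zero 2 he) (mul_ne_zero two_ne_zero he))
  unfold GS
  linear_combination (X * zS k d * bS k d ^ 2) * h1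

theorem FS_yS [CharZero L] (he : (1 + 2 * c : L) ≠ 0) {t : L} (hp : Par k d h c l)
    (ht : t * (1 + 4 * h) = 1) : FS k d h c l * yS k d c = X * aS k d * bS k d := by
  apply mul_right_cancel₀ (cS_ne (h := h) (l := l) he (k := k) (d := d))
  have h4 : (4 : L⟦X⟧) ≠ 0 := by
    intro h1
    have h2 := congrArg constantCoeff h1
    rw [cc_four, map_zero] at h2
    exact (by norm_num : (4 : L) ≠ 0) h2
  have h1 := alg_star h4 (show zS k d = X ^ 2 * wS (aP k d) (bP k d) from rfl) (two_yS k d c)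
    (two_sub_X k d) (four_cS hp ht)
  have h2 := FS_cS (h := h) (l := l) he (k := k) (d := d)
  linear_combination yS k d c * h2 + X * h1

theorem FG_curve [CharZero L] (he : (1 + 2 * c : L) ≠ 0) {t : L} (hp : Par k d h c l)
    (ht : t * (1 + 4 * h) = 1) :
    CEq (aP l (h ^ 2)) (bP l (h ^ 2)) (FS k d h c l) (GS k d c) := by
  have h1 := congrArg (C (R := L)) hp.hh
  have h2 := congrArg (C (R := L)) hp.kk
  have h3 := congrArg (C (R := L)) ht
  simp only [map_add, map_mul, map_pow, map_ofNat, map_one] at h1 h2 h3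
  obtain ⟨p1, p2, p3⟩ := alg_sq (z := zS k d) h1 h2 h3
  have hz : zS k d * (2 - X) ^ 2 = X ^ 2 * (aS k d * bS k d) := by
    have h5 := two_sub_X k d
    unfold zS
    linear_combination X ^ 2 * h5
  have h6 := alg_curve (n := C h ^ 2) (m := 1 + 4 * C l)
    (yS_ne he) (CE_ne he) (FS_yS he hp ht) (GS_yS he) (two_yS k d c) hz p1 p2 p3
  have h4 : (4 : L⟦X⟧) ≠ 0 := by
    intro h1
    have h2 := congrArg constantCoeff h1
    rw [cc_four, map_zero] at h2
    exact (by norm_num : (4 : L) ≠ 0) h2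
  unfold CEq
  rw [C_aP, C_bP, map_pow]
  apply mul_left_cancel₀ h4
  linear_combination h6

theorem FG_der [CharZero L] (he : (1 + 2 * c : L) ≠ 0) {t : L} (hp : Par k d h c l)
    (ht : t * (1 + 4 * h) = 1) :
    derivative L (FS k d h c l) * GS k d c - FS k d h c l * derivative L (GS k d c) =
      (FS k d h c l - 2) * GS k d c * (C (2 / (1 + 2 * c)) * omS (aP k d) (bP k d)) := by
  have hL : ∀ a b : L⟦X⟧, derivative L (a * b) = a * derivative L b + b * derivative L a :=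
    fun a b => by rw [Derivation.leibniz, smul_eq_mul, smul_eq_mul]
  have h2' : derivative L (2 : L⟦X⟧) = 0 := by
    rw [← map_ofNat (C (R := L)), derivative_C]
  have h4' : derivative L (4 : L⟦X⟧) = 0 := by
    rw [← map_ofNat (C (R := L)), derivative_C]
  have hw := wDer (aP k d) (bP k d)
  have hz' : derivative L (zS k d) = X * wS (aP k d) (bP k d) * (2 - X) *
      omS (aP k d) (bP k d) := by
    have h1 : derivative L (zS k d) = X * (2 * wS (aP k d) (bP k d) +
        X * derivative L (wS (aP k d) (bP k d))) := by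
      unfold zS
      rw [hL, Derivation.leibniz_pow, derivative_X]
      simp only [smul_eq_mul, nsmul_eq_mul]
      push_cast
      ring
    rw [h1, hw]
    ring
  have hpE : C (2 / (1 + 2 * c)) * (1 + 2 * C c : L⟦X⟧) = 2 := by
    have h5 : (1 + 2 * C c : L⟦X⟧) = C (1 + 2 * c) := by
      rw [map_add, map_mul, map_one, map_ofNat]
    rw [h5, ← map_mul, div_mul_cancel₀ _ he, map_ofNat]
  have hM : zS k d * bS k d ≠ 0 := by
    apply mul_ne_zero
    · unfold zS
      apply mul_ne_zero (pow_ne_zero 2 X_ne_zero)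
      intro h1
      have h2 := wS_const (aP k d) (bP k d)
      rw [h1, map_zero] at h2
      exact zero_ne_one h2
    · intro h1
      have h2 := bS_const k d
      rw [h1, map_zero] at h2
      exact (by norm_num : (4 : L) ≠ 0) h2.symm
  have hc' : derivative L ((1 + 2 * C c : L⟦X⟧)) = 0 := by
    rw [map_add, hL, derivative_C, h2', Derivation.map_one_eq_zero]
    ring
  have hk' : derivative L ((1 + 4 * C k : L⟦X⟧)) = 0 := by
    rw [map_add, hL, derivative_C, h4', Derivation.map_one_eq_zero]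
    ring
  refine alg_der (z' := derivative L (zS k d)) (q := qS k d) (a := aS k d) (b := bS k d)
    (z := zS k d) (k := 1 + 4 * C k) (d := C d) (x := X) (w := wS (aP k d) (bP k d))
    (yS_ne he) (CE_ne he) hM hpE rfl rfl rfl rfl hz' (FS_yS he hp ht) (GS_yS he) (two_yS k d c) ?_
  intro h1
  have h2 := congrArg (derivative L) h1
  have hb' : derivative L (zS k d * bS k d) = derivative L (zS k d) *
      (4 + 2 * ((1 + 4 * C k) * zS k d)) := by
    unfold bS
    rw [hL, map_add, hL, hk', h4']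
    ring
  have ha' : derivative L ((1 + 2 * C c) ^ 2 * aS k d) = (1 + 2 * C c) ^ 2 *
      (4 * (C d * (1 + 4 * C k) * derivative L (zS k d))) := by
    unfold aS
    rw [hL, Derivation.leibniz_pow, hc', map_add, Derivation.map_one_eq_zero, hL, hL, hL, hk',
      derivative_C, h4']
    simp only [smul_zero]
    ring
  rw [hL (FS k d h c l), hL (GS k d c), hb', ha'] at h2
  linear_combination h2

/-- **the logarithm of the isogeny** -/
theorem lg_FS [CharZero L] (he : (1 + 2 * c : L) ≠ 0) {t : L} (hp : Par k d h c l)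
    (ht : t * (1 + 4 * h) = 1) :
    cs (lgS (aP l (h ^ 2)) (bP l (h ^ 2))) (FS k d h c l) =
      C (2 / (1 + 2 * c)) * lgS (aP k d) (bP k d) := by
  have hF0 : FS k d h c l ≠ 0 := by
    intro h1
    have h2 := FS_yS he hp ht
    rw [h1, zero_mul] at h2
    have h3 : aS k d ≠ 0 := by
      intro h4
      have h5 := aS_const k d
      rw [h4, map_zero] at h5
      exact zero_ne_one h5
    have h3' : bS k d ≠ 0 := by
      intro h4
      have h5 := bS_const k d
      rw [h4, map_zero] at h5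
      exact (by norm_num : (4 : L) ≠ 0) h5.symm
    exact mul_ne_zero (mul_ne_zero X_ne_zero h3) h3' h2.symm
  refine (lg_of_diff (FS_const k d h c l) (GS_const k d c) ?_ hF0 (FG_curve he hp ht) ?_).1
  · rw [map_mul, lgS_const, mul_zero]
  · have h6 : derivative L (C (2 / (1 + 2 * c)) * lgS (aP k d) (bP k d)) =
        C (2 / (1 + 2 * c)) * omS (aP k d) (bP k d) := by
      rw [Derivation.leibniz, derivative_C, d_lgS]
      simp
    rw [h6]
    exact FG_der he hp ht

theorem coeff_one_FS [CharZero L] (he : (1 + 2 * c : L) ≠ 0) {t : L} (hp : Par k d h c l)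
    (ht : t * (1 + 4 * h) = 1) : coeff 1 (FS k d h c l) = 2 / (1 + 2 * c) := by
  have h1 := congrArg (coeff 1) (lg_FS he hp ht)
  rwa [coeff_one_cs (FS_const k d h c l), coeff_one_lgS, one_mul, coeff_C_mul, coeff_one_lgS,
    mul_one] at h1

end field

end DK.F4
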